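import Pool.Agent.H496.A1.Polar

/-! The integral over an annulus. -/

set_option autoImplicit false

namespace Pool.Agent.H496

open MeasureTheory Set Function
open scoped ENNReal NNReal ComplexConjugate

theorem radial_le {ρ : ℝ} (h0 : 0 < ρ) :
    radial {r : Ioi (0 : ℝ) | 1 - ρ < (r : ℝ) ∧ (r : ℝ) < 1 + ρ} ≤ ENNReal.ofReal (2 * ρ * (1 + ρ) ^ 3) := by
  have hm : MeasurableSet {r : Ioi (0 : ℝ) | 1 - ρ < (r : ℝ) ∧ (r : ℝ) < 1 + ρ} :=
    (measurableSet_lt measurable_const measurable_subtype_coe).inter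
      (measurableSet_lt measurable_subtype_coe measurable_const)
  rw [radial, Measure.volumeIoiPow, withDensity_apply _ hm]
  calc ∫⁻ r in {r : Ioi (0 : ℝ) | 1 - ρ < (r : ℝ) ∧ (r : ℝ) < 1 + ρ}, ENNReal.ofReal (r.1 ^ 3)
        ∂(volume.comap Subtype.val) ≤
      ∫⁻ r in {r : Ioi (0 : ℝ) | 1 - ρ < (r : ℝ) ∧ (r : ℝ) < 1 + ρ}, ENNReal.ofReal ((1 + ρ) ^ 3)
        ∂(volume.comap Subtype.val) := by
        refine setLIntegral_mono' hm fun r hr => ENNReal.ofReal_le_ofReal ?_
        have h1 : (0 : ℝ) < r := r.2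
        have h2 := hr.2
        gcongr
    _ = ENNReal.ofReal ((1 + ρ) ^ 3) * (volume.comap Subtype.val)
        {r : Ioi (0 : ℝ) | 1 - ρ < (r : ℝ) ∧ (r : ℝ) < 1 + ρ} := by
        rw [lintegral_const, Measure.restrict_apply_univ]
    _ ≤ ENNReal.ofReal ((1 + ρ) ^ 3) * ENNReal.ofReal (2 * ρ) := by
        refine mul_le_mul' le_rfl ?_
        rw [(MeasurableEmbedding.subtype_coe measurableSet_Ioi).comap_apply]
        refine (measure_mono (t := Ioo (1 - ρ) (1 + ρ)) ?_).trans ?_
        · rintro _ ⟨r, hr, rfl⟩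
          exact hr
        · rw [Real.volume_Ioo]
          apply ENNReal.ofReal_le_ofReal
          linarith
    _ = _ := by
        rw [← ENNReal.ofReal_mul (by positivity)]
        congr 1
        ring

variable {V : Type*} [Fintype V]

/-- the product of the annuli -/
def Ann (ρ : V → ℝ) : Set (V → Quaternion ℝ) := {x | ∀ v, 1 - ρ v < ‖x v‖ ∧ ‖x v‖ < 1 + ρ v}

theorem measurableSet_Ann (ρ : V → ℝ) : MeasurableSet (Ann ρ) := by
  have : Ann ρ = ⋂ v, ({x | 1 - ρ v < ‖x v‖} ∩ {x | ‖x v‖ < 1 + ρ v}) := by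
    ext x
    simp [Ann]
  rw [this]
  refine MeasurableSet.iInter fun v => MeasurableSet.inter ?_ ?_
  · exact measurableSet_lt measurable_const ((measurable_pi_apply v).norm)
  · exact measurableSet_lt ((measurable_pi_apply v).norm) measurable_const

theorem annulus_bound {Z : Type*} [MeasurableSpace Z] (μ : Measure Z) [SFinite μ] {J : Type*} [Fintype J]
    [DecidableEq J] (f : J → Z → (V → Quaternion ℝ) → ℂ) (hf : ∀ j, Measurable (uncurry (f j)))
    (n : J → V → ℕ)
    (hhom : ∀ j z (r : V → ℝ) x, f j z (fun v => r v • x v) = (∏ v, (r v : ℂ) ^ n j v) * f j z x)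
    (ho : ∀ i j, ∫ p : Z × (V → S3), f i p.1 (fun v => p.2 v) * conj (f j p.1 (fun v => p.2 v))
      ∂(μ.prod (Measure.pi fun _ => sph)) = if i = j then 1 else 0)
    {ρ : V → ℝ} (h0 : ∀ v, 0 < ρ v) {E : ℝ} (hE : ∀ j v, (1 + ρ v) ^ (2 * n j v) ≤ E) (d : J → ℂ) :
    ∫⁻ z, (∫⁻ x in Ann ρ, ENNReal.ofReal (‖∑ j, d j * f j z x‖ ^ 2)) ∂μ ≤
      (∏ v, ENNReal.ofReal (E * (2 * ρ v * (1 + ρ v) ^ 3))) * ENNReal.ofReal (∑ j, ‖d j‖ ^ 2) := by
  classical
  have hms : Measurable fun p : Z × (V → Quaternion ℝ) => ENNReal.ofReal (‖∑ j, d j * f j p.1 p.2‖ ^ 2) := by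
    refine Measurable.ennreal_ofReal ?_
    refine Measurable.pow_const (Measurable.norm ?_) 2
    exact Finset.measurable_sum _ fun j _ => (hf j).const_mul _
  set T : Set (V → Ioi (0 : ℝ)) := univ.pi fun v => {r : Ioi (0 : ℝ) | 1 - ρ v < (r : ℝ) ∧ (r : ℝ) < 1 + ρ v} with hT
  have hmI : ∀ v, MeasurableSet {r : Ioi (0 : ℝ) | 1 - ρ v < (r : ℝ) ∧ (r : ℝ) < 1 + ρ v} := fun v =>
    (measurableSet_lt measurable_const measurable_subtype_coe).inter
      (measurableSet_lt measurable_subtype_coe measurable_const)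
  have hmT : MeasurableSet T := MeasurableSet.univ_pi hmI
  have hmap : Measurable fun q : (V → Ioi (0 : ℝ)) × (V → S3) => fun v => ((q.1 v : ℝ)) • (q.2 v : Quaternion ℝ) := by
    refine measurable_pi_iff.2 fun v => ?_
    have h1 : Measurable fun q : (V → Ioi (0 : ℝ)) × (V → S3) => ((q.1 v : ℝ)) :=
      measurable_subtype_coe.comp ((measurable_pi_apply v).comp measurable_fst)
    have h2 : Measurable fun q : (V → Ioi (0 : ℝ)) × (V → S3) => ((q.2 v : Quaternion ℝ)) :=
      measurable_subtype_coe.comp ((measurable_pi_apply v).comp measurable_snd)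
    exact h1.smul h2
  -- polar coordinates
  have s1 : ∀ z, ∫⁻ x in Ann ρ, ENNReal.ofReal (‖∑ j, d j * f j z x‖ ^ 2) =
      ∫⁻ r : V → Ioi (0 : ℝ), ∫⁻ u : V → S3, T.indicator (fun _ => (1 : ℝ≥0∞)) r *
        ENNReal.ofReal (‖∑ j, d j * f j z (fun v => (r v : ℝ) • (u v : Quaternion ℝ))‖ ^ 2)
      ∂(Measure.pi fun _ => sph) ∂(Measure.pi fun _ => radial) := by
    intro z
    have hpr : Measurable fun x : V → Quaternion ℝ => (z, x) := measurable_prodMk_left
    have hmz : Measurable fun x : V → Quaternion ℝ => ENNReal.ofReal (‖∑ j, d j * f j z x‖ ^ 2) := by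
      have h := hms.comp hpr
      exact h
    rw [← lintegral_indicator (measurableSet_Ann ρ), lintegral_polar (hmz.indicator (measurableSet_Ann ρ))]
    refine lintegral_congr fun r => lintegral_congr fun u => ?_
    have hiff : (fun v => (r v : ℝ) • (u v : Quaternion ℝ)) ∈ Ann ρ ↔ r ∈ T := by
      have hn : ∀ v, ‖(r v : ℝ) • (u v : Quaternion ℝ)‖ = r v := by
        intro v
        have h1 : (0 : ℝ) < r v := (r v).2
        have h2 : ‖(u v : Quaternion ℝ)‖ = 1 := mem_sphere_zero_iff_norm.1 (u v).2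
        rw [norm_smul, h2, mul_one, Real.norm_eq_abs, abs_of_pos h1]
      simp only [Ann, mem_ofPred_eq, hn, hT, mem_pi, mem_univ, true_imp_iff]
    by_cases h : r ∈ T
    · have e1 := indicator_of_mem (hiff.2 h) (fun x : V → Quaternion ℝ => ENNReal.ofReal (‖∑ j, d j * f j z x‖ ^ 2))
      have e2 := indicator_of_mem h (fun _ : V → Ioi (0 : ℝ) => (1 : ℝ≥0∞))
      exact e1.trans (by rw [e2, one_mul])
    · have e1 := indicator_of_notMem (fun h' => h (hiff.1 h'))
        (fun x : V → Quaternion ℝ => ENNReal.ofReal (‖∑ j, d j * f j z x‖ ^ 2))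
      have e2 := indicator_of_notMem h (fun _ : V → Ioi (0 : ℝ) => (1 : ℝ≥0∞))
      exact e1.trans (by rw [e2, zero_mul])
  simp_rw [s1]
  have hmeas3 : Measurable fun q : (Z × (V → Ioi (0 : ℝ))) × (V → S3) =>
      T.indicator (fun _ => (1 : ℝ≥0∞)) q.1.2 *
        ENNReal.ofReal (‖∑ j, d j * f j q.1.1 (fun v => (q.1.2 v : ℝ) • (q.2 v : Quaternion ℝ))‖ ^ 2) := by
    refine Measurable.mul ?_ ?_
    · exact (measurable_const.indicator hmT).comp (measurable_snd.comp measurable_fst)
    · have hz : Measurable fun q : (Z × (V → Ioi (0 : ℝ))) × (V → S3) => q.1.1 := measurable_fst.comp measurable_fst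
      have hr : Measurable fun q : (Z × (V → Ioi (0 : ℝ))) × (V → S3) => (q.1.2, q.2) :=
        (measurable_snd.comp measurable_fst).prodMk measurable_snd
      have h := hms.comp (hz.prodMk (hmap.comp hr))
      exact h
  rw [lintegral_lintegral_swap hmeas3.lintegral_prod_right'.aemeasurable]
  -- orthonormality
  have s2 : ∀ r : V → Ioi (0 : ℝ), ∫⁻ z, ∫⁻ u : V → S3, T.indicator (fun _ => (1 : ℝ≥0∞)) r *
        ENNReal.ofReal (‖∑ j, d j * f j z (fun v => (r v : ℝ) • (u v : Quaternion ℝ))‖ ^ 2)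
      ∂(Measure.pi fun _ => sph) ∂μ ≤ T.indicator (fun _ => ENNReal.ofReal (E ^ Fintype.card V * ∑ j, ‖d j‖ ^ 2)) r := by
    intro r
    by_cases h : r ∈ T
    · rw [indicator_of_mem h, indicator_of_mem h]
      simp only [one_mul]
      have e1 : ∀ z (u : V → S3), ∑ j, d j * f j z (fun v => (r v : ℝ) • (u v : Quaternion ℝ)) =
          ∑ j, (d j * ∏ v, ((r v : ℝ) : ℂ) ^ n j v) * f j z (fun v => u v) := by
        intro z u
        refine Finset.sum_congr rfl fun j _ => ?_
        rw [hhom j z (fun v => (r v : ℝ)) (fun v => (u v : Quaternion ℝ))]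
        ring
      simp_rw [e1]
      have hsm : ∀ j, Measurable fun p : Z × (V → S3) => f j p.1 (fun v => p.2 v) := by
        intro j
        have hval : Measurable fun p : Z × (V → S3) => (fun v => (p.2 v : Quaternion ℝ)) :=
          measurable_pi_iff.2 fun v => measurable_subtype_coe.comp ((measurable_pi_apply v).comp measurable_snd)
        exact (hf j).comp (measurable_fst.prodMk hval)
      have key := orth_sum (μ.prod (Measure.pi fun _ : V => sph)) (fun j p => f j p.1 (fun v => p.2 v))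
        (fun j => (hsm j).aestronglyMeasurable) ho (fun j => d j * ∏ v, ((r v : ℝ) : ℂ) ^ n j v)
      rw [lintegral_prod] at key
      · rw [key]
        apply ENNReal.ofReal_le_ofReal
        rw [Finset.mul_sum]
        refine Finset.sum_le_sum fun j _ => ?_
        rw [norm_mul, mul_pow, mul_comm]
        refine mul_le_mul_of_nonneg_right ?_ (sq_nonneg _)
        rw [norm_prod, ← Finset.prod_pow, ← Finset.card_univ, ← Finset.prod_const]
        refine Finset.prod_le_prod (fun v _ => sq_nonneg _) fun v _ => ?_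
        have hr := (h v (mem_univ v)).2
        have hr0 : (0 : ℝ) < r v := (r v).2
        rw [norm_pow, Complex.norm_real, Real.norm_eq_abs, abs_of_pos hr0, ← pow_mul, mul_comm (n j v)]
        exact (pow_le_pow_left₀ hr0.le hr.le _).trans (hE j v)
      · refine Measurable.aemeasurable ?_
        refine Measurable.ennreal_ofReal ?_
        refine Measurable.pow_const (Measurable.norm ?_) 2
        exact Finset.measurable_sum _ fun j _ => (hsm j).const_mul _
    · rw [indicator_of_notMem h, indicator_of_notMem h]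
      simp
  refine (lintegral_mono s2).trans ?_
  rw [lintegral_indicator hmT, lintegral_const, Measure.restrict_apply_univ, hT, Measure.pi_pi]
  have hE0 : ∀ j : J, ∀ v : V, 0 ≤ E := fun j v => by
    have := h0 v
    refine le_trans ?_ (hE j v)
    positivity
  rcases isEmpty_or_nonempty J with hJ | ⟨⟨j⟩⟩
  · simp
  rcases isEmpty_or_nonempty V with hV | ⟨⟨v₀⟩⟩
  · simp
  have hE1 : 0 ≤ E := hE0 j v₀
  rw [ENNReal.ofReal_mul (by positivity), mul_right_comm]
  refine mul_le_mul' ?_ le_rfl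
  rw [← Finset.card_univ, ← Finset.prod_const, ENNReal.ofReal_prod_of_nonneg (fun _ _ => hE1),
    ← Finset.prod_mul_distrib]
  refine Finset.prod_le_prod' fun v _ => ?_
  rw [ENNReal.ofReal_mul hE1]
  exact mul_le_mul' le_rfl (radial_le (h0 v))

end Pool.Agent.H496
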