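import Pool.Graph.R_pool_sql_team_seeded_707910d6.T2H31.Sph5

/-! Traces and displacements. -/

set_option autoImplicit false

namespace Pool.Agent.H496

open MeasureTheory Set Function UpperHalfPlane
open scoped ENNReal NNReal MatrixGroups

theorem im_smulR (g : SL(2, ℝ)) (z : ℍ) :
    (g • z : ℍ).im = z.im / ‖((g 1 0 : ℝ) : ℂ) * z + (g 1 1 : ℝ)‖ ^ 2 := by
  have h := UpperHalfPlane.im_smul_eq_div_normSq (g : GL (Fin 2) ℝ) z
  have h2 : ((g : GL (Fin 2) ℝ) • z : ℍ) = g • z := rfl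
  rw [h2] at h
  rw [h, ← Complex.normSq_eq_norm_sq]
  simp [denom]

theorem tr_sq_le (g : SL(2, ℝ)) (z : ℍ) :
    (g 0 0 + g 1 1) ^ 2 ≤ 4 + 4 * Real.sinh (dist z (g • z) / 2) ^ 2 := by
  have hy := z.im_pos
  have hdet : g 0 0 * g 1 1 - g 0 1 * g 1 0 = 1 := by
    have := g.det_coe
    rwa [Matrix.det_fin_two] at this
  set A := g 0 0
  set B := g 0 1
  set C := g 1 0
  set D := g 1 1
  set w : ℂ := (C : ℂ) * z + (D : ℂ) with hw
  have hw0 : w ≠ 0 := by
    intro h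
    have h1 : w.im = C * z.im := by simp [hw]
    have h2 : w.re = C * z.re + D := by simp [hw]
    rw [h] at h1 h2
    simp only [Complex.zero_im, Complex.zero_re] at h1 h2
    have h3 : C = 0 := by
      rcases mul_eq_zero.1 h1.symm with h | h
      · exact h
      · exact absurd h hy.ne'
    rw [h3] at h2 hdet
    have h4 : D = 0 := by linarith
    rw [h4] at hdet
    simp at hdet
  have hwn : 0 < ‖w‖ := norm_pos_iff.2 hw0
  have h1 : (z : ℂ) - ((g • z : ℍ) : ℂ) = ((C : ℂ) * z ^ 2 + (D - A) * z - B) / w := by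
    rw [UpperHalfPlane.specialLinearGroup_apply]
    show (z : ℂ) - ((A : ℂ) * z + (B : ℂ)) / ((C : ℂ) * z + (D : ℂ)) = _
    rw [← hw]
    field_simp
    rw [hw]
    ring
  have h2 : (g • z : ℍ).im = z.im / ‖w‖ ^ 2 := im_smulR g z
  have h3 : Real.sinh (dist z (g • z) / 2) ^ 2 = ‖(C : ℂ) * z ^ 2 + (D - A) * z - B‖ ^ 2 / (4 * z.im ^ 2) := by
    rw [sinh_half_dist, Complex.dist_eq, h1, div_pow, mul_pow, Real.sq_sqrt, h2, norm_div]
    · field_simp
      norm_num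
    · have := (g • z).im_pos
      positivity
  have h4 : ‖(C : ℂ) * z ^ 2 + (D - A) * z - B‖ ^ 2 =
      (C * (z.re ^ 2 - z.im ^ 2) + (D - A) * z.re - B) ^ 2 + (z.im * (2 * C * z.re + D - A)) ^ 2 := by
    have e : (C : ℂ) * z ^ 2 + (D - A) * z - B =
        ((C * (z.re ^ 2 - z.im ^ 2) + (D - A) * z.re - B : ℝ) : ℂ) +
          ((z.im * (2 * C * z.re + D - A) : ℝ) : ℂ) * Complex.I := by
      have hz : (z : ℂ) = z.re + z.im * Complex.I := (Complex.re_add_im (z : ℂ)).symm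
      rw [hz]
      push_cast
      linear_combination ((C : ℂ) * (z.im : ℂ) ^ 2) * Complex.I_sq
    rw [e, ← Complex.normSq_eq_norm_sq, Complex.normSq_add_mul_I]
  rw [h3, h4]
  have h5 : (A + D) ^ 2 - 4 ≤ ((C * (z.re ^ 2 - z.im ^ 2) + (D - A) * z.re - B) ^ 2 +
      (z.im * (2 * C * z.re + D - A)) ^ 2) / z.im ^ 2 := by
    rw [le_div_iff₀ (by positivity)]
    have h6 : (C * (z.re ^ 2 - z.im ^ 2) + (D - A) * z.re - B) ^ 2 + (z.im * (2 * C * z.re + D - A)) ^ 2 =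
        (C * z.re ^ 2 + (D - A) * z.re - B + C * z.im ^ 2) ^ 2 + z.im ^ 2 * ((A + D) ^ 2 - 4) +
          4 * z.im ^ 2 * (1 - (A * D - B * C)) := by ring
    rw [h6, hdet]
    nlinarith [sq_nonneg (C * z.re ^ 2 + (D - A) * z.re - B + C * z.im ^ 2)]
  have h7 : ∀ q : ℝ, 4 * (q / (4 * z.im ^ 2)) = q / z.im ^ 2 := by
    intro q
    field_simp
  rw [h7]
  linarith

theorem abs_tr_le (g : SL(2, ℝ)) (z : ℍ) : |g 0 0 + g 1 1| ≤ 2 * Real.cosh (dist z (g • z) / 2) := by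
  have h := tr_sq_le g z
  have h2 := Real.cosh_sq (dist z (g • z) / 2)
  have h3 := Real.cosh_pos (dist z (g • z) / 2)
  apply abs_le_of_sq_le_sq _ (by linarith)
  rw [mul_pow, h2]
  linarith

theorem cosh_rad {U : ℝ} (hU : 1 ≤ U) : Real.cosh (Pool.Agent.T2H31.rad U) = 2 * U - 1 := by
  have h0 : 0 ≤ U - 1 := by linarith
  rw [Pool.Agent.T2H31.rad, Real.cosh_two_mul, Real.sinh_arsinh, Real.cosh_arsinh, Real.sq_sqrt h0,
    Real.sq_sqrt (by linarith)]
  ring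

theorem rad_nonneg (U : ℝ) : 0 ≤ Pool.Agent.T2H31.rad U := by
  rw [Pool.Agent.T2H31.rad]
  have : 0 ≤ Real.arsinh (Real.sqrt (U - 1)) := Real.arsinh_nonneg_iff.2 (Real.sqrt_nonneg _)
  linarith

/-- the exceptional place -/
theorem two_sub_tr_exc {U : ℝ} (hU : 1 ≤ U) (g : SL(2, ℝ)) (z p : ℍ)
    (h1 : z ∈ Metric.closedBall p (Pool.Agent.T2H31.rad U))
    (h2 : g • z ∈ Metric.closedBall p (Pool.Agent.T2H31.rad U)) : |2 - (g 0 0 + g 1 1)| ≤ 4 * U := by
  rw [Metric.mem_closedBall] at h1 h2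
  have h3 : dist z (g • z) ≤ 2 * Pool.Agent.T2H31.rad U := by
    have := dist_triangle_right z (g • z) p
    linarith
  have h4 := abs_tr_le g z
  have h5 : Real.cosh (dist z (g • z) / 2) ≤ Real.cosh (Pool.Agent.T2H31.rad U) := by
    rw [Real.cosh_le_cosh, abs_of_nonneg (by positivity), abs_of_nonneg (rad_nonneg U)]
    linarith
  rw [cosh_rad hU] at h5
  have h6 := abs_le.1 h4
  rw [abs_le]
  constructor <;> linarith

/-- the other places -/
theorem two_sub_tr_loc {ρ : ℝ} (h0 : 0 ≤ ρ) (hρ : ρ ≤ 1 / 2) (g : SL(2, ℝ)) (z p : ℍ)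
    (h1 : z ∈ Pool.Agent.T2H31.EB p ρ)
    (h2 : g • z ∈ Pool.Agent.T2H31.EB p ρ) : |2 - (g 0 0 + g 1 1)| ≤ 6 := by
  have h1' := Pool.Agent.T2H31.dist_of_EB h0 hρ h1
  have h2' := Pool.Agent.T2H31.dist_of_EB h0 hρ h2
  have h3 : dist z (g • z) ≤ 2 := by
    have := dist_triangle_right z (g • z) p
    linarith
  have h4 := abs_tr_le g z
  have h5 : Real.cosh (dist z (g • z) / 2) ≤ Real.cosh 1 := by
    rw [Real.cosh_le_cosh, abs_of_nonneg (by positivity), abs_of_nonneg (by norm_num)]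
    linarith
  have h6 := abs_le.1 h4
  have h7 : Real.cosh 1 ≤ 2 := by
    rw [Real.cosh_eq]
    have e1 := Real.exp_one_lt_d9
    have e2 : Real.exp (-1) ≤ 1 := Real.exp_le_one_iff.2 (by norm_num)
    linarith
  rw [abs_le]
  constructor <;> linarith

end Pool.Agent.H496
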