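import Mathlib

/-! Iterating sub-mean value inequalities over several places. -/

set_option autoImplicit false

namespace Pool.Agent.H496

open MeasureTheory Set Function
open scoped ENNReal NNReal

section
variable {W : Type*} [Fintype W] [DecidableEq W] {X : Type*} [MeasurableSpace X] {Y : Type*} {J : Type*} [Fintype J]

/-- the square of the absolute value of a linear combination -/
noncomputable def NN (e : J → (W → X) → Y → ℂ) (c : J → ℂ) (z : W → X) (y : Y) : ℝ≥0∞ :=
  ENNReal.ofReal (‖∑ j, c j * e j z y‖ ^ 2)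

variable (μ : Measure X) [SigmaFinite μ] (e : J → (W → X) → Y → ℂ) (A : W → Fin 2 → ℝ≥0∞) (m : W → Fin 2 → J → ℝ)
  (B : W → X → Set X) (C : W → J → ℝ≥0∞)

theorem iterate_places
    (hA : ∀ w c z y, NN e c z y ≤ ∑ t : Fin 2, A w t *
      ∫⁻ u in B w (z w), NN e (fun j => (m w t j : ℂ) * c j) (update z w u) y ∂μ)
    (hC : ∀ w j, ∑ t : Fin 2, A w t * ENNReal.ofReal (m w t j ^ 2) ≤ C w j)
    (hmeas : ∀ c y, Measurable fun z => NN e c z y) (s : Finset W) :
    ∃ (ι : Type) (_ : Fintype ι) (A' : ι → ℝ≥0∞) (m' : ι → J → ℝ),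
      (∀ j, ∑ i, A' i * ENNReal.ofReal (m' i j ^ 2) ≤ ∏ w ∈ s, C w j) ∧
      ∀ (c : J → ℂ) (p : W → X) (y : Y) (z : W → X), (∀ v ∈ s, z v = p v) → NN e c z y ≤ ∑ i, A' i *
        (∫⋯∫⁻_s, (fun z' => NN e (fun j => (m' i j : ℂ) * c j) z' y) ∂(fun v => μ.restrict (B v (p v)))) z := by
  induction s using Finset.induction_on with
  | empty =>
    refine ⟨Unit, inferInstance, fun _ => 1, fun _ _ => 1, fun j => ?_, fun c p y z _ => ?_⟩
    · simp
    · simp
  | insert w s hw ih =>
    obtain ⟨ι, hι, A', m', hb, hs⟩ := ih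
    refine ⟨Fin 2 × ι, inferInstance, fun q => A w q.1 * A' q.2, fun q j => m' q.2 j * m w q.1 j, ?_, ?_⟩
    · intro j
      rw [Finset.prod_insert hw, Fintype.sum_prod_type]
      calc ∑ t, ∑ i, A w t * A' i * ENNReal.ofReal ((m' i j * m w t j) ^ 2) =
          (∑ t, A w t * ENNReal.ofReal (m w t j ^ 2)) * ∑ i, A' i * ENNReal.ofReal (m' i j ^ 2) := by
            rw [Finset.sum_mul_sum]
            refine Finset.sum_congr rfl fun t _ => Finset.sum_congr rfl fun i _ => ?_
            rw [mul_pow, ENNReal.ofReal_mul (sq_nonneg _)]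
            ring
        _ ≤ _ := mul_le_mul' (hC w j) (hb j)
    · intro c p y z hz
      have hzw : z w = p w := hz w (Finset.mem_insert_self _ _)
      have hzs : ∀ v ∈ s, z v = p v := fun v hv => hz v (Finset.mem_insert_of_mem hv)
      have h1 := hA w c z y
      rw [hzw] at h1
      refine h1.trans ?_
      rw [Fintype.sum_prod_type]
      refine Finset.sum_le_sum fun t _ => ?_
      have hmm : ∀ i, Measurable (fun z' => NN e (fun j => (m' i j : ℂ) * ((m w t j : ℂ) * c j)) z' y) :=
        fun i => hmeas _ y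
      have h2 : ∫⁻ u in B w (p w), NN e (fun j => (m w t j : ℂ) * c j) (update z w u) y ∂μ ≤
          ∫⁻ u in B w (p w), ∑ i, A' i *
            (∫⋯∫⁻_s, (fun z' => NN e (fun j => (m' i j : ℂ) * ((m w t j : ℂ) * c j)) z' y)
              ∂(fun v => μ.restrict (B v (p v)))) (update z w u) ∂μ := by
        refine lintegral_mono fun u => hs _ p y (update z w u) fun v hv => ?_
        rw [update_of_ne]
        · exact hzs v hv
        · rintro rfl
          exact hw hv
      refine (mul_le_mul' le_rfl h2).trans ?_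
      rw [lintegral_finsetSum, Finset.mul_sum]
      · refine Finset.sum_le_sum fun i _ => ?_
        rw [lintegral_const_mul, ← mul_assoc]
        · rw [lmarginal_insert _ (hmeas _ y) hw]
          refine le_of_eq ?_
          congr 1
          refine lintegral_congr fun u => ?_
          congr 2
          funext z'
          congr 1
          funext j
          push_cast
          ring
        · exact ((hmm i).lmarginal _).comp (measurable_update z)
      · intro i _
        exact (((hmm i).lmarginal _).comp (measurable_update z)).const_mul _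

theorem all_places
    (hA : ∀ w c z y, NN e c z y ≤ ∑ t : Fin 2, A w t *
      ∫⁻ u in B w (z w), NN e (fun j => (m w t j : ℂ) * c j) (update z w u) y ∂μ)
    (hC : ∀ w j, ∑ t : Fin 2, A w t * ENNReal.ofReal (m w t j ^ 2) ≤ C w j)
    (hmeas : ∀ c y, Measurable fun z => NN e c z y) :
    ∃ (ι : Type) (_ : Fintype ι) (A' : ι → ℝ≥0∞) (m' : ι → J → ℝ),
      (∀ j, ∑ i, A' i * ENNReal.ofReal (m' i j ^ 2) ≤ ∏ w, C w j) ∧
      ∀ c z y, NN e c z y ≤ ∑ i, A' i *
        ∫⁻ z' in univ.pi (fun v => B v (z v)), NN e (fun j => (m' i j : ℂ) * c j) z' y ∂Measure.pi fun _ => μ := by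
  obtain ⟨ι, hι, A', m', h1, h2⟩ := iterate_places μ e A m B C hA hC hmeas Finset.univ
  refine ⟨ι, hι, A', m', h1, fun c z y => (h2 c z y z fun _ _ => rfl).trans (le_of_eq ?_)⟩
  refine Finset.sum_congr rfl fun i _ => ?_
  rw [lmarginal_univ, Measure.restrict_pi_pi]

end

end Pool.Agent.H496
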