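import Mathlib

/-! Unfolding. -/

set_option autoImplicit false

namespace Pool.Agent.H496

open MeasureTheory Set Function
open scoped ENNReal NNReal

theorem unfold_group {X G : Type*} [MeasurableSpace X] (μ : Measure X) [Group G] [Countable G] (T : G → X → X)
    (hT1 : ∀ x, T 1 x = x) (hTm : ∀ g h x, T (g * h) x = T g (T h x)) (hmp : ∀ g, MeasurePreserving (T g) μ μ)
    {B D : Set X} (hB : MeasurableSet B) (hD : MeasurableSet D) {H : X → ℝ≥0∞} (hH : Measurable H)
    (hinv : ∀ g x, H (T g x) = H x) (hcov : ∀ᵐ x ∂μ, x ∈ B → ∃ g, T g x ∈ D) {M : ℝ≥0∞}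
    (hM : ∀ x ∈ D, ∑' g, B.indicator (fun _ => (1 : ℝ≥0∞)) (T g x) ≤ M) :
    ∫⁻ x in B, H x ∂μ ≤ M * ∫⁻ x in D, H x ∂μ := by
  have hms : ∀ g, MeasurableSet {x | T g x ∈ D} := fun g => (hmp g).measurable hD
  have hinvT : ∀ g x, T g (T g⁻¹ x) = x := fun g x => by rw [← hTm, mul_inv_cancel, hT1]
  calc ∫⁻ x in B, H x ∂μ = ∫⁻ x in ⋃ g : G, (B ∩ {x | T g x ∈ D}), H x ∂μ := by
        refine setLIntegral_congr ?_
        filter_upwards [hcov] with x hx
        apply propext
        constructor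
        · intro h
          obtain ⟨g, hg⟩ := hx h
          exact mem_iUnion.2 ⟨g, h, hg⟩
        · intro h
          obtain ⟨g, hg⟩ := mem_iUnion.1 h
          exact hg.1
    _ ≤ ∑' g : G, ∫⁻ x in B ∩ {x | T g x ∈ D}, H x ∂μ := lintegral_iUnion_le _ _
    _ = ∑' g : G, ∫⁻ x in D, B.indicator (fun _ => (1 : ℝ≥0∞)) (T g⁻¹ x) * H x ∂μ := by
        refine tsum_congr fun g => ?_
        rw [← lintegral_indicator (hB.inter (hms g)), ← (hmp g⁻¹).lintegral_comp
          ((hH.indicator (hB.inter (hms g)))), ← lintegral_indicator hD]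
        refine lintegral_congr fun w => ?_
        have hmem : T g⁻¹ w ∈ B ∩ {x | T g x ∈ D} ↔ T g⁻¹ w ∈ B ∧ w ∈ D := by
          constructor
          · rintro ⟨a, b⟩
            refine ⟨a, ?_⟩
            have : T g (T g⁻¹ w) ∈ D := b
            rwa [hinvT] at this
          · rintro ⟨a, b⟩
            refine ⟨a, ?_⟩
            show T g (T g⁻¹ w) ∈ D
            rwa [hinvT]
        by_cases h2 : w ∈ D
        · by_cases h1 : T g⁻¹ w ∈ B
          · rw [indicator_of_mem (hmem.2 ⟨h1, h2⟩), indicator_of_mem h2, indicator_of_mem h1, hinv, one_mul]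
          · rw [indicator_of_notMem (fun h => h1 (hmem.1 h).1), indicator_of_mem h2, indicator_of_notMem h1,
              zero_mul]
        · rw [indicator_of_notMem (fun h => h2 (hmem.1 h).2), indicator_of_notMem h2]
    _ = ∑' g : G, ∫⁻ x in D, B.indicator (fun _ => (1 : ℝ≥0∞)) (T g x) * H x ∂μ :=
        (Equiv.inv G).tsum_eq fun g => ∫⁻ x in D, B.indicator (fun _ => (1 : ℝ≥0∞)) (T g x) * H x ∂μ
    _ = ∫⁻ x in D, (∑' g : G, B.indicator (fun _ => (1 : ℝ≥0∞)) (T g x)) * H x ∂μ := by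
        rw [← lintegral_tsum]
        · refine lintegral_congr fun w => ?_
          rw [ENNReal.tsum_mul_right]
        · intro g
          refine Measurable.aemeasurable ?_
          exact ((measurable_const.indicator hB).comp (hmp g).measurable).mul hH
    _ ≤ ∫⁻ x in D, M * H x ∂μ := setLIntegral_mono' hD fun w hw => by gcongr; exact hM w hw
    _ = M * ∫⁻ x in D, H x ∂μ := lintegral_const_mul _ hH

theorem tsum_le_one_of_unique {X G : Type*} {B : Set X} (T : G → X → X) (x : X)
    (h : ∀ g g', T g x ∈ B → T g' x ∈ B → g = g') :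
    ∑' g, B.indicator (fun _ => (1 : ℝ≥0∞)) (T g x) ≤ 1 := by
  by_cases h0 : ∃ g, T g x ∈ B
  · obtain ⟨g, hg⟩ := h0
    rw [tsum_eq_single g]
    · rw [indicator_of_mem hg]
    · intro g' hne
      exact indicator_of_notMem (fun h' => hne (h g' g h' hg)) _
  · push Not at h0
    have : ∀ g, B.indicator (fun _ => (1 : ℝ≥0∞)) (T g x) = 0 := fun g => indicator_of_notMem (h0 g) _
    simp [this]

end Pool.Agent.H496
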