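import Pool.Agent.H496.A1.Place
import Pool.Agent.H496.A1.Geo
import Pool.Agent.H496.A1.Multi
import Pool.Agent.H496.A1.Annulus
import Pool.Agent.H496.A1.Unf

/-! The main estimate. -/

set_option autoImplicit false

namespace Pool.Agent.H496

open MeasureTheory Set Function
open UpperHalfPlane hiding I
open scoped ENNReal NNReal ComplexConjugate MatrixGroups
open Pool.Agent.T2H31 (rad EB)

section places
variable {W V J : Type*} [Fintype W] [DecidableEq W] [Fintype V] [Fintype J]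
  (f : J → (W → ℍ) → (V → Quaternion ℝ) → ℂ) (w₀ : W) (U : ℝ) (L : W → ℝ) (lam : J → W → ℝ)

/-- the constants -/
noncomputable def AA (w : W) (t : Fin 2) : ℝ≥0∞ :=
  if w = w₀ then (if t = 0 then ENNReal.ofReal (4 * Real.pi * U) else 0)
  else (if t = 0 then ENNReal.ofReal (16 * L w) else ENNReal.ofReal (1 / L w))

/-- the multipliers -/
noncomputable def mm (w : W) (t : Fin 2) (j : J) : ℝ :=
  if w = w₀ then (hT U (sp (lam j w)))⁻¹ else (if t = 0 then 1 else lam j w)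

/-- the balls -/
noncomputable def BB (w : W) (z : ℍ) : Set ℍ :=
  if w = w₀ then Metric.closedBall z (rad U) else EB z (1 / (2 * Real.sqrt (L w)))

/-- the resulting constants -/
noncomputable def CC (ϑ : J → ℝ) (w : W) (j : J) : ℝ :=
  if w = w₀ then 4 * Real.pi * U ^ (-(2 * ϑ j)) else 17 * L w

theorem measurableSet_BB (w : W) (z : ℍ) : MeasurableSet (BB w₀ U L w z) := by
  unfold BB
  split_ifs
  · exact Metric.isClosed_closedBall.measurableSet
  · exact (Pool.Agent.T2H31.isClosed_EB _ _).measurableSet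

variable {U L lam}

theorem one_place (hU : 6 ≤ U) {ϑ : J → ℝ} (hϑ : ∀ j, 0 ≤ ϑ j) (hϑ2 : ∀ j, ϑ j ≤ 1 / 2) (hL : ∀ w, 1 ≤ L w)
    (hlam : ∀ j, lam j w₀ ≤ 1 / 4 - ϑ j ^ 2)
    (hE : ∀ j w z x, Eig (fun u => f j (update z w u) x) (lam j w)) (w : W) (c : J → ℂ) (z : W → ℍ)
    (y : V → Quaternion ℝ) :
    NN f c z y ≤ ∑ t : Fin 2, AA w₀ U L w t *
      ∫⁻ u in BB w₀ U L w (z w), NN f (fun j => (mm w₀ U lam w t j : ℂ) * c j) (update z w u) y := by
  have hz : update z w (z w) = z := update_eq_self w z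
  rw [Fin.sum_univ_two]
  by_cases hw : w = w₀
  · subst hw
    have h1 : ∀ j, 0 < hT U (sp (lam j w)) := fun j =>
      lt_of_lt_of_le (by positivity) (hT_ge hU (hϑ j) (hϑ2 j) (sp_ge (hlam j)))
    have key := exc_complex (e := fun j u => f j (update z w u) y) (lam := fun j => lam j w)
      (fun j => hE j w z y) (U := U) (by linarith) (fun j => by have := hlam j; have := sq_nonneg (ϑ j); linarith) h1 c (z w)
    simp only [hz] at key
    simp only [AA, BB, mm, if_true, one_ne_zero, if_false, zero_mul, add_zero]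
    exact key
  · have key := loc_complex (e := fun j u => f j (update z w u) y) (lam := fun j => lam j w)
      (fun j => hE j w z y) (hL w) c (z w)
    simp only [hz] at key
    simp only [AA, BB, mm, if_neg hw, if_true, one_ne_zero, if_false, Complex.ofReal_one, one_mul]
    exact key

theorem one_const (hU : 6 ≤ U) {ϑ : J → ℝ} (hϑ : ∀ j, 0 ≤ ϑ j) (hϑ2 : ∀ j, ϑ j ≤ 1 / 2) (hL : ∀ w, 1 ≤ L w)
    (hlam : ∀ j, lam j w₀ ≤ 1 / 4 - ϑ j ^ 2) (hlam2 : ∀ j, ∀ w ≠ w₀, |lam j w| ≤ L w) (w : W) (j : J) :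
    ∑ t : Fin 2, AA w₀ U L w t * ENNReal.ofReal (mm w₀ U lam w t j ^ 2) ≤ ENNReal.ofReal (CC w₀ U L ϑ w j) := by
  have hU0 : 0 < U := by linarith
  have hpi := Real.pi_pos
  rw [Fin.sum_univ_two]
  by_cases hw : w = w₀
  · subst hw
    have h1 := hT_ge hU (hϑ j) (hϑ2 j) (sp_ge (hlam j))
    have h2 : 0 < U ^ (1 / 2 + ϑ j) := by positivity
    simp only [AA, mm, CC, if_true, one_ne_zero, if_false, zero_mul, add_zero]
    rw [← ENNReal.ofReal_mul (by positivity)]
    apply ENNReal.ofReal_le_ofReal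
    have h5 : 0 < hT U (sp (lam j w)) := lt_of_lt_of_le h2 h1
    have h3 : (hT U (sp (lam j w)))⁻¹ ^ 2 ≤ (U ^ (1 / 2 + ϑ j))⁻¹ ^ 2 := by gcongr
    have h4 : (U ^ (1 / 2 + ϑ j))⁻¹ ^ 2 = U⁻¹ * U ^ (-(2 * ϑ j)) := by
      rw [inv_pow, ← Real.rpow_natCast, ← Real.rpow_mul hU0.le, ← Real.rpow_neg hU0.le, ← Real.rpow_neg_one U,
        ← Real.rpow_add hU0]
      congr 1
      push_cast
      ring
    calc 4 * Real.pi * U * (hT U (sp (lam j w)))⁻¹ ^ 2 ≤ 4 * Real.pi * U * (U⁻¹ * U ^ (-(2 * ϑ j))) := by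
          rw [← h4]
          gcongr
      _ = _ := by field_simp
  · have hLw := hL w
    have hl := hlam2 j w hw
    have hsq : lam j w ^ 2 ≤ L w ^ 2 := by
      rw [← sq_abs (lam j w)]
      gcongr
    simp only [AA, mm, CC, if_neg hw, if_true, one_ne_zero, if_false, one_pow, ENNReal.ofReal_one, mul_one]
    rw [← ENNReal.ofReal_mul (by positivity), ← ENNReal.ofReal_add (by positivity) (by positivity)]
    apply ENNReal.ofReal_le_ofReal
    have h5 : 1 / L w * lam j w ^ 2 ≤ L w := by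
      rw [div_mul_eq_mul_div, one_mul, div_le_iff₀ (by linarith)]
      nlinarith
    linarith

end places

theorem vol_ball_ge (g : Quaternion ℝ) {ρ : ℝ} (h0 : 0 ≤ ρ) :
    ENNReal.ofReal (4 * ρ ^ 4) ≤ volume (Metric.ball g ρ) := by
  rw [InnerProductSpace.volume_ball, finrank_Q]
  have e1 : Real.Gamma ((4 : ℕ) / 2 + 1) = 2 := by
    have : ((4 : ℕ) : ℝ) / 2 + 1 = (2 : ℕ) + 1 := by norm_num
    rw [this, Real.Gamma_nat_eq_factorial]
    norm_num
  rw [e1, ← ENNReal.ofReal_pow h0, ← ENNReal.ofReal_mul (by positivity)]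
  apply ENNReal.ofReal_le_ofReal
  have h1 : Real.sqrt Real.pi ^ 4 = Real.pi ^ 2 := by
    rw [show (4 : ℕ) = 2 * 2 from rfl, pow_mul, Real.sq_sqrt Real.pi_pos.le]
  rw [h1]
  have h2 := Real.pi_gt_three
  have h3 : 4 ≤ Real.pi ^ 2 / 2 := by nlinarith
  have h4 : 0 ≤ ρ ^ 4 := by positivity
  nlinarith

section core
variable {W V J G : Type*} [Fintype W] [DecidableEq W] [Fintype V] [Fintype J] [DecidableEq J]
  [Group G] [Countable G] (r : W → G →* SL(2, ℝ)) (σ : V → G →* Quaternion ℝ) (hσ : ∀ v γ, ‖σ v γ‖ = 1)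

/-- the action on the symmetric space -/
noncomputable def TT (γ : G) (p : (W → ℍ) × (V → Quaternion ℝ)) : (W → ℍ) × (V → Quaternion ℝ) :=
  (fun w => r w γ • p.1 w, fun v => σ v γ * p.2 v)

include hσ

theorem mp_TT (γ : G) : MeasurePreserving (TT r σ γ) (volume.prod volume) (volume.prod volume) := by
  have h1 : MeasurePreserving (fun (z : W → ℍ) w => r w γ • z w) volume volume :=
    measurePreserving_pi _ _ fun w => measurePreserving_smul ((r w γ : SL(2, ℝ)) : GL (Fin 2) ℝ) (volume : Measure ℍ)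
  have h2 : MeasurePreserving (fun (x : V → Quaternion ℝ) v => σ v γ * x v) volume volume :=
    measurePreserving_pi _ _ fun v => (mulLeftIso (σ v γ) (hσ v γ)).measurePreserving
  exact h1.prod h2

variable {w₀ : W} {U Q : ℝ} {L : W → ℝ} {ρ : V → ℝ}

theorem unique_return (hU : 6 ≤ U) (hL : ∀ w, 1 ≤ L w) (hρ0 : ∀ v, 0 < ρ v) (hρ1 : ∀ v, ρ v ≤ 1 / 20)
    (hQ : ∀ γ, γ ≠ 1 → Q ≤ (∏ w, |2 - (r w γ 0 0 + r w γ 1 1)|) * ∏ v, ‖σ v γ - 1‖ ^ 2)
    (hsmall : 4 * U * 6 ^ Fintype.card W * ∏ v, (16 * ρ v ^ 2) < Q)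
    {z₀ : W → ℍ} {g : V → Quaternion ℝ} (p : (W → ℍ) × (V → Quaternion ℝ)) (hg : ∀ v, ‖g v‖ = 1) (γ γ' : G)
    (h1 : TT r σ γ p ∈ (univ.pi fun w => BB w₀ U L w (z₀ w)) ×ˢ (univ.pi fun v => Metric.ball (g v) (ρ v)))
    (h2 : TT r σ γ' p ∈ (univ.pi fun w => BB w₀ U L w (z₀ w)) ×ˢ (univ.pi fun v => Metric.ball (g v) (ρ v))) :
    γ = γ' := by
  by_contra hne
  set δ := γ' * γ⁻¹ with hδ
  have hδ1 : δ ≠ 1 := by
    intro h
    apply hne
    rw [hδ, mul_inv_eq_one] at h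
    exact h.symm
  have hδγ : δ * γ = γ' := by rw [hδ]; group
  have key := hQ δ hδ1
  have hw : ∀ w, |2 - (r w δ 0 0 + r w δ 1 1)| ≤ if w = w₀ then 4 * U else 6 := by
    intro w
    have a1 : r w γ • p.1 w ∈ BB w₀ U L w (z₀ w) := h1.1 w (mem_univ w)
    have a2 : r w γ' • p.1 w ∈ BB w₀ U L w (z₀ w) := h2.1 w (mem_univ w)
    rw [← hδγ, map_mul, mul_smul] at a2
    split_ifs with h
    · rw [BB, if_pos h] at a1 a2
      exact two_sub_tr_exc (by linarith) _ _ _ a1 a2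
    · rw [BB, if_neg h] at a1 a2
      have hLw := hL w
      have hs : 1 ≤ Real.sqrt (L w) := Real.one_le_sqrt.2 hLw
      refine two_sub_tr_loc (ρ := 1 / (2 * Real.sqrt (L w))) (by positivity) ?_ _ _ _ a1 a2
      gcongr
      linarith
  have hv : ∀ v, ‖σ v δ - 1‖ ^ 2 ≤ 16 * ρ v ^ 2 := by
    intro v
    have a1 : σ v γ * p.2 v ∈ Metric.ball (g v) (ρ v) := h1.2 v (mem_univ v)
    have a2 : σ v γ' * p.2 v ∈ Metric.ball (g v) (ρ v) := h2.2 v (mem_univ v)
    rw [← hδγ, map_mul, mul_assoc] at a2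
    set x := σ v γ * p.2 v with hx
    rw [mem_ball_iff_norm] at a1 a2
    have b1 : ‖(σ v δ - 1) * x‖ ≤ 2 * ρ v := by
      have e : (σ v δ - 1) * x = (σ v δ * x - g v) - (x - g v) := by
        rw [sub_mul, one_mul]
        abel
      rw [e]
      have := norm_sub_le (σ v δ * x - g v) (x - g v)
      linarith
    have b2 : 1 / 2 ≤ ‖x‖ := by
      have := norm_sub_norm_le (g v) x
      rw [norm_sub_rev] at this
      have h3 := hρ1 v
      rw [hg v] at this
      linarith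
    rw [norm_mul] at b1
    have b3 : ‖σ v δ - 1‖ ≤ 4 * ρ v := by
      have := norm_nonneg (σ v δ - 1)
      nlinarith
    calc ‖σ v δ - 1‖ ^ 2 ≤ (4 * ρ v) ^ 2 := by gcongr
      _ = _ := by ring
  have hU0 : 0 ≤ U := by linarith
  have c1 : (∏ w, |2 - (r w δ 0 0 + r w δ 1 1)|) ≤ 4 * U * 6 ^ Fintype.card W := by
    calc (∏ w, |2 - (r w δ 0 0 + r w δ 1 1)|) ≤ ∏ w, (if w = w₀ then 4 * U else 6) :=
          Finset.prod_le_prod (fun w _ => abs_nonneg _) fun w _ => hw w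
      _ ≤ ∏ w, ((if w = w₀ then 4 * U else 1) * 6) := by
          refine Finset.prod_le_prod (fun w _ => by split_ifs <;> positivity) fun w _ => ?_
          split_ifs <;> nlinarith
      _ = 4 * U * 6 ^ Fintype.card W := by
          rw [Finset.prod_mul_distrib, Finset.prod_ite_eq' Finset.univ w₀ fun _ => 4 * U]
          simp
  have c2 : ∏ v, ‖σ v δ - 1‖ ^ 2 ≤ ∏ v, (16 * ρ v ^ 2) :=
    Finset.prod_le_prod (fun v _ => sq_nonneg _) fun v _ => hv v
  have c3 : (∏ w, |2 - (r w δ 0 0 + r w δ 1 1)|) * ∏ v, ‖σ v δ - 1‖ ^ 2 ≤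
      4 * U * 6 ^ Fintype.card W * ∏ v, (16 * ρ v ^ 2) :=
    mul_le_mul c1 c2 (Finset.prod_nonneg fun v _ => sq_nonneg _) (by positivity)
  linarith

variable (f : J → (W → ℍ) → (V → Quaternion ℝ) → ℂ) {lam : J → W → ℝ} {n : J → V → ℕ} {κ : V → ℝ}
  {F : Set (W → ℍ)}

theorem core (hU : 6 ≤ U) (hL : ∀ w, 1 ≤ L w) (hρ0 : ∀ v, 0 < ρ v) (hρ1 : ∀ v, ρ v ≤ 1 / 20)
    (hQ : ∀ γ, γ ≠ 1 → Q ≤ (∏ w, |2 - (r w γ 0 0 + r w γ 1 1)|) * ∏ v, ‖σ v γ - 1‖ ^ 2)
    (hsmall : 4 * U * 6 ^ Fintype.card W * ∏ v, (16 * ρ v ^ 2) < Q)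
    (hF : MeasurableSet F) (hcov : ∀ᵐ z : W → ℍ, ∃ γ : G, (fun w => r w γ • z w) ∈ F)
    (hfc : ∀ j, Continuous (uncurry (f j)))
    (hinv : ∀ j γ z x, f j (fun w => r w γ • z w) (fun v => σ v γ * x v) = f j z x)
    (hE : ∀ j w z x, Eig (fun u => f j (update z w u) x) (lam j w))
    (hn : ∀ j z, f j z ∈ harm (n j))
    (ho : ∀ i j, ∫ p : (W → ℍ) × (V → S3), f i p.1 (fun v => p.2 v) * conj (f j p.1 (fun v => p.2 v))
      ∂((volume.restrict F).prod (Measure.pi fun _ => sph)) = if i = j then 1 else 0)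
    (hnρ : ∀ j v, n j v * ρ v ≤ 1 / 20)
    (hlam2 : ∀ j, ∀ w ≠ w₀, |lam j w| ≤ L w)
    {ϑ : J → ℝ} (hϑ : ∀ j, 0 ≤ ϑ j) (hϑ2 : ∀ j, ϑ j ≤ 1 / 2) (hlam : ∀ j, lam j w₀ ≤ 1 / 4 - ϑ j ^ 2)
    (z : W → ℍ) (g : V → Quaternion ℝ) (hg : ∀ v, ‖g v‖ = 1) :
    ∑ j, U ^ (2 * ϑ j) * ‖f j z g‖ ^ 2 ≤
      (4 * Real.pi * ∏ w ∈ Finset.univ.erase w₀, (17 * L w)) * ∏ v, (ρ v ^ 3)⁻¹ := by
  have hU0 : 0 < U := by linarith
  have hpi := Real.pi_pos
  have hLpos : ∀ w, 0 < L w := fun w => by linarith [hL w]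
  have hCC0 : ∀ w j, 0 ≤ CC w₀ U L ϑ w j := by
    intro w j
    have := hLpos w
    unfold CC
    split_ifs <;> positivity
  have hmf : ∀ j, Measurable (uncurry (f j)) := fun j => (hfc j).measurable
  have hms : ∀ c : J → ℂ, Measurable fun p : (W → ℍ) × (V → Quaternion ℝ) => NN f c p.1 p.2 := by
    intro c
    refine Measurable.ennreal_ofReal ?_
    refine Measurable.pow_const (Measurable.norm ?_) 2
    exact Finset.measurable_sum _ fun j _ => (hmf j).const_mul _
  have hmz : ∀ (c : J → ℂ) (y : V → Quaternion ℝ), Measurable fun z => NN f c z y := by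
    intro c y
    have hpr : Measurable fun z : W → ℍ => (z, y) := measurable_prodMk_right
    have h := (hms c).comp hpr
    exact h
  obtain ⟨ι, hι, A', m', hb, hmain⟩ := all_places (volume : Measure ℍ) f (AA w₀ U L) (mm w₀ U lam) (BB w₀ U L)
    (fun w j => ENNReal.ofReal (CC w₀ U L ϑ w j)) (one_place f w₀ hU hϑ hϑ2 hL hlam hE)
    (one_const w₀ hU hϑ hϑ2 hL hlam hlam2) hmz
  -- the sets
  set BW : Set (W → ℍ) := univ.pi fun w => BB w₀ U L w (z w) with hBW
  set BV : Set (V → Quaternion ℝ) := univ.pi fun v => Metric.ball (g v) (ρ v) with hBV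
  have hmBW : MeasurableSet BW := MeasurableSet.univ_pi fun w => measurableSet_BB w₀ U L w (z w)
  have hmBV : MeasurableSet BV := MeasurableSet.univ_pi fun v => measurableSet_ball
  have hBVAnn : BV ⊆ Ann ρ := by
    intro x hx v
    have h1 := hx v (mem_univ v)
    rw [mem_ball_iff_norm] at h1
    have h2 := norm_sub_norm_le (x v) (g v)
    have h3 := norm_sub_norm_le (g v) (x v)
    rw [norm_sub_rev] at h3
    rw [hg v] at h2 h3
    constructor <;> linarith
  have hn1 : ∀ j v, (1 + ρ v) ^ (2 * n j v) ≤ 9 / 8 := by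
    intro j v
    have h1 : (1 + ρ v) ^ (2 * n j v) ≤ Real.exp (1 / 10) := by
      calc (1 + ρ v) ^ (2 * n j v) ≤ Real.exp (ρ v) ^ (2 * n j v) := by
            have := Real.add_one_le_exp (ρ v)
            have h2 := hρ0 v
            gcongr
            linarith
        _ = Real.exp ((2 * n j v : ℕ) * ρ v) := by rw [← Real.exp_nat_mul]
        _ ≤ Real.exp (1 / 10) := by
            apply Real.exp_le_exp.2
            have := hnρ j v
            push_cast
            linarith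
    have h2 : Real.exp (1 / 10) ≤ 9 / 8 := by
      have h3 := Real.exp_bound_div_one_sub_of_interval (x := 1 / 10) (by norm_num) (by norm_num)
      refine h3.trans ?_
      norm_num
    exact h1.trans h2
  -- the unfolding
  have hunf : ∀ c : J → ℂ, ∫⁻ z' in BW, (∫⁻ x in BV, NN f c z' x) ≤ ∫⁻ z' in F, (∫⁻ x in Ann ρ, NN f c z' x) := by
    intro c
    have h1 := unfold_group ((volume : Measure (W → ℍ)).prod (volume : Measure (V → Quaternion ℝ)))
      (TT r σ) (fun p => by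
        refine Prod.ext ?_ ?_
        · funext w
          show r w 1 • p.1 w = p.1 w
          rw [map_one, one_smul]
        · funext v
          show σ v 1 * p.2 v = p.2 v
          rw [map_one, one_mul])
      (fun γ γ' p => by
        refine Prod.ext ?_ ?_
        · funext w
          show r w (γ * γ') • p.1 w = r w γ • r w γ' • p.1 w
          rw [map_mul, mul_smul]
        · funext v
          show σ v (γ * γ') * p.2 v = σ v γ * (σ v γ' * p.2 v)
          rw [map_mul, mul_assoc])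
      (mp_TT r σ hσ) (hmBW.prod hmBV) (hF.prod (measurableSet_Ann ρ)) (hms c)
      (fun γ p => by
        simp only [NN, TT]
        simp_rw [hinv])
      (by
        have h2 := (Measure.quasiMeasurePreserving_fst (μ := (volume : Measure (W → ℍ)))
          (ν := (volume : Measure (V → Quaternion ℝ)))).ae hcov
        filter_upwards [h2] with p hp hpB
        obtain ⟨γ, hγ⟩ := hp
        refine ⟨γ, hγ, fun v => ?_⟩
        have := hBVAnn hpB.2 v
        show 1 - ρ v < ‖σ v γ * p.2 v‖ ∧ ‖σ v γ * p.2 v‖ < 1 + ρ v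
        rw [norm_mul, hσ, one_mul]
        exact this)
      (M := 1) (fun p _ => tsum_le_one_of_unique (TT r σ) p fun γ γ' h h' =>
        unique_return r σ hσ hU hL hρ0 hρ1 hQ hsmall p hg γ γ' h h')
    rw [one_mul, ← Measure.prod_restrict, ← Measure.prod_restrict, lintegral_prod _ (hms c).aemeasurable,
      lintegral_prod _ (hms c).aemeasurable] at h1
    exact h1
  -- the annulus
  have hann : ∀ c : J → ℂ, ∫⁻ z' in F, (∫⁻ x in Ann ρ, NN f c z' x) ≤
      (∏ v, ENNReal.ofReal (4 * ρ v)) * ENNReal.ofReal (∑ j, ‖c j‖ ^ 2) := by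
    intro c
    refine (annulus_bound (volume.restrict F) f hmf n (fun j z' r' x => harm_smul (hn j z') r' x) ho hρ0 hn1 c).trans ?_
    refine mul_le_mul' (Finset.prod_le_prod' fun v _ => ENNReal.ofReal_le_ofReal ?_) le_rfl
    have h1 := hρ0 v
    have h2 := hρ1 v
    have h3 : (1 + ρ v) ^ 3 ≤ (21 / 20) ^ 3 := by
      gcongr
      linarith
    calc 9 / 8 * (2 * ρ v * (1 + ρ v) ^ 3) ≤ 9 / 8 * (2 * ρ v * (21 / 20) ^ 3) := by gcongr
      _ ≤ _ := by nlinarith
  -- everything together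
  have hall : ∀ c : J → ℂ, (∏ v, ENNReal.ofReal (4 * ρ v ^ 4)) * NN f c z g ≤
      (∏ v, ENNReal.ofReal (4 * ρ v)) * ENNReal.ofReal (∑ j, (∏ w, CC w₀ U L ϑ w j) * ‖c j‖ ^ 2) := by
    intro c
    have hmv : ∀ (c : J → ℂ) (z' : W → ℍ), (∏ v, ENNReal.ofReal (4 * ρ v ^ 4)) * NN f c z' g ≤
        ∫⁻ x in BV, NN f c z' x := by
      intro c z'
      have hP : MeanValue (∑ j, c j • f j z') :=
        meanValue_sum Finset.univ fun j _ => (meanValue_of_mem (hn j z')).smul (c j)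
      have h1 := hP.le g hρ0
      have e1 : ∀ x, (∑ j, c j • f j z') x = ∑ j, c j * f j z' x := by
        intro x
        simp
      simp_rw [e1] at h1
      refine le_trans (mul_le_mul' (Finset.prod_le_prod' fun v _ => ?_) le_rfl) h1
      exact vol_ball_ge (g v) (hρ0 v).le
    calc (∏ v, ENNReal.ofReal (4 * ρ v ^ 4)) * NN f c z g ≤
        (∏ v, ENNReal.ofReal (4 * ρ v ^ 4)) * ∑ i, A' i * ∫⁻ z' in BW, NN f (fun j => (m' i j : ℂ) * c j) z' g :=
          mul_le_mul' le_rfl (hmain c z g)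
      _ = ∑ i, A' i * ∫⁻ z' in BW, (∏ v, ENNReal.ofReal (4 * ρ v ^ 4)) *
          NN f (fun j => (m' i j : ℂ) * c j) z' g := by
          rw [Finset.mul_sum]
          refine Finset.sum_congr rfl fun i _ => ?_
          rw [lintegral_const_mul _ (hmz _ g)]
          ring
      _ ≤ ∑ i, A' i * ∫⁻ z' in BW, (∫⁻ x in BV, NN f (fun j => (m' i j : ℂ) * c j) z' x) := by
          refine Finset.sum_le_sum fun i _ => mul_le_mul' le_rfl ?_
          exact lintegral_mono fun z' => hmv _ z'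
      _ ≤ ∑ i, A' i * ((∏ v, ENNReal.ofReal (4 * ρ v)) * ENNReal.ofReal (∑ j, ‖(m' i j : ℂ) * c j‖ ^ 2)) := by
          refine Finset.sum_le_sum fun i _ => mul_le_mul' le_rfl ?_
          exact (hunf _).trans (hann _)
      _ = (∏ v, ENNReal.ofReal (4 * ρ v)) * ∑ j, (∑ i, A' i * ENNReal.ofReal (m' i j ^ 2)) *
          ENNReal.ofReal (‖c j‖ ^ 2) := by
          simp_rw [Finset.sum_mul]
          rw [Finset.sum_comm, Finset.mul_sum]
          refine Finset.sum_congr rfl fun i _ => ?_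
          rw [ENNReal.ofReal_sum_of_nonneg (fun j _ => sq_nonneg _), Finset.mul_sum, Finset.mul_sum, Finset.mul_sum]
          refine Finset.sum_congr rfl fun j _ => ?_
          rw [norm_mul, mul_pow, Complex.norm_real, Real.norm_eq_abs, sq_abs, ENNReal.ofReal_mul (sq_nonneg _)]
          ring
      _ ≤ (∏ v, ENNReal.ofReal (4 * ρ v)) * ∑ j, ENNReal.ofReal (∏ w, CC w₀ U L ϑ w j) *
          ENNReal.ofReal (‖c j‖ ^ 2) := by
          refine mul_le_mul' le_rfl (Finset.sum_le_sum fun j _ => mul_le_mul' ?_ le_rfl)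
          rw [ENNReal.ofReal_prod_of_nonneg (fun w _ => hCC0 w j)]
          exact hb j
      _ = _ := by
          rw [ENNReal.ofReal_sum_of_nonneg (fun j _ => mul_nonneg (Finset.prod_nonneg fun w _ => hCC0 w j) (sq_nonneg _))]
          congr 1
          refine Finset.sum_congr rfl fun j _ => ?_
          rw [ENNReal.ofReal_mul (Finset.prod_nonneg fun w _ => hCC0 w j)]
  -- duality
  have hCCe : ∀ j, ∏ w, CC w₀ U L ϑ w j =
      (4 * Real.pi * ∏ w ∈ Finset.univ.erase w₀, (17 * L w)) * U ^ (-(2 * ϑ j)) := by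
    intro j
    rw [← Finset.mul_prod_erase Finset.univ _ (Finset.mem_univ w₀)]
    have e1 : CC w₀ U L ϑ w₀ j = 4 * Real.pi * U ^ (-(2 * ϑ j)) := by simp [CC]
    have e2 : ∏ w ∈ Finset.univ.erase w₀, CC w₀ U L ϑ w j = ∏ w ∈ Finset.univ.erase w₀, (17 * L w) := by
      refine Finset.prod_congr rfl fun w hw => ?_
      rw [CC, if_neg (Finset.ne_of_mem_erase hw)]
    rw [e1, e2]
    ring
  set M : ℝ := 4 * Real.pi * ∏ w ∈ Finset.univ.erase w₀, (17 * L w) with hM
  have hM0 : 0 ≤ M := by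
    rw [hM]
    have : 0 ≤ ∏ w ∈ Finset.univ.erase w₀, (17 * L w) := Finset.prod_nonneg fun w _ => by
      have := hLpos w
      positivity
    positivity
  set S : ℝ := ∑ j, U ^ (2 * ϑ j) * ‖f j z g‖ ^ 2 with hS
  have hS0 : 0 ≤ S := Finset.sum_nonneg fun j _ => by positivity
  have hdual := hall (fun j => ((U ^ (2 * ϑ j) : ℝ) : ℂ) * conj (f j z g))
  have e2 : NN f (fun j => ((U ^ (2 * ϑ j) : ℝ) : ℂ) * conj (f j z g)) z g = ENNReal.ofReal (S ^ 2) := by
    rw [NN]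
    congr 2
    have : ∑ j, ((U ^ (2 * ϑ j) : ℝ) : ℂ) * conj (f j z g) * f j z g = ((S : ℝ) : ℂ) := by
      rw [hS]
      push_cast
      refine Finset.sum_congr rfl fun j _ => ?_
      rw [mul_assoc, mul_comm (conj (f j z g)), Complex.mul_conj, Complex.normSq_eq_norm_sq]
      push_cast
      rfl
    rw [this, Complex.norm_real, Real.norm_of_nonneg hS0]
  have e3 : ∑ j, (∏ w, CC w₀ U L ϑ w j) * ‖((U ^ (2 * ϑ j) : ℝ) : ℂ) * conj (f j z g)‖ ^ 2 = M * S := by
    rw [hS, Finset.mul_sum]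
    refine Finset.sum_congr rfl fun j _ => ?_
    have hUp : 0 < U ^ (2 * ϑ j) := by positivity
    rw [hCCe, norm_mul, RCLike.norm_conj, Complex.norm_real, Real.norm_of_nonneg hUp.le, mul_pow,
      Real.rpow_neg hU0.le]
    field_simp
  rw [e2, e3, ← ENNReal.ofReal_prod_of_nonneg (fun v _ => by have := hρ0 v; positivity),
    ← ENNReal.ofReal_prod_of_nonneg (fun v _ => by have := hρ0 v; positivity),
    ← ENNReal.ofReal_mul (Finset.prod_nonneg fun v _ => by have := hρ0 v; positivity),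
    ← ENNReal.ofReal_mul (Finset.prod_nonneg fun v _ => by have := hρ0 v; positivity)] at hdual
  have hdual2 := (ENNReal.ofReal_le_ofReal_iff (by
    refine mul_nonneg (Finset.prod_nonneg fun v _ => by have := hρ0 v; positivity) (mul_nonneg hM0 hS0))).1 hdual
  have e4 : ∏ v, (4 * ρ v) = (∏ v, (4 * ρ v ^ 4)) * ∏ v, (ρ v ^ 3)⁻¹ := by
    rw [← Finset.prod_mul_distrib]
    refine Finset.prod_congr rfl fun v _ => ?_
    have := hρ0 v
    field_simp
  rw [e4] at hdual2
  have hpos : 0 < ∏ v, (4 * ρ v ^ 4) := Finset.prod_pos fun v _ => by have := hρ0 v; positivity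
  have h6 : S ^ 2 ≤ (∏ v, (ρ v ^ 3)⁻¹) * (M * S) := by
    rw [mul_assoc] at hdual2
    exact le_of_mul_le_mul_left hdual2 hpos
  rcases hS0.eq_or_lt with h | h
  · rw [← h]
    exact mul_nonneg hM0 (Finset.prod_nonneg fun v _ => by have := hρ0 v; positivity)
  · have h7 : S * S ≤ (M * ∏ v, (ρ v ^ 3)⁻¹) * S := by
      calc S * S = S ^ 2 := by ring
        _ ≤ _ := h6
        _ = _ := by ring
    exact le_of_mul_le_mul_right h7 h

end core

end Pool.Agent.H496
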