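import Pool.Graph.R_pool_sql_team_seeded_707910d6.T2H31.Sph5

/-! The mean value inequality at an exceptional place. -/

set_option autoImplicit false

namespace Pool.Agent.H496

open Complex MeasureTheory Set Function
open UpperHalfPlane hiding I
open scoped ENNReal NNReal
open Pool.Agent.T2H31

theorem cs_on {w f : ℝ → ℝ} {a b : ℝ} (hab : a ≤ b) (hw : ContinuousOn w (Icc a b)) (hf : ContinuousOn f (Icc a b))
    (h0 : ∀ x ∈ Icc a b, 0 ≤ w x) :
    (∫ x in a..b, w x * f x) ^ 2 ≤ (∫ x in a..b, w x) * ∫ x in a..b, w x * f x ^ 2 := by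
  have h : ∀ t : ℝ, 0 ≤ (∫ x in a..b, w x) * (t * t) + (-2 * ∫ x in a..b, w x * f x) * t +
      ∫ x in a..b, w x * f x ^ 2 := by
    intro t
    have h1 : 0 ≤ ∫ x in a..b, w x * (f x - t) ^ 2 :=
      intervalIntegral.integral_nonneg hab fun x hx => mul_nonneg (h0 x hx) (sq_nonneg _)
    have h2 : ∫ x in a..b, w x * (f x - t) ^ 2 = (∫ x in a..b, w x * (t * t)) +
        (∫ x in a..b, (-2 * t) * (w x * f x)) + ∫ x in a..b, w x * f x ^ 2 := by
      rw [← intervalIntegral.integral_add, ← intervalIntegral.integral_add]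
      · refine intervalIntegral.integral_congr fun x _ => ?_
        show _ = _
        ring
      all_goals
        refine ContinuousOn.intervalIntegrable ?_
        rw [uIcc_of_le hab]
        fun_prop
    rw [h2, intervalIntegral.integral_mul_const, intervalIntegral.integral_const_mul] at h1
    linarith
  have := discrim_le_zero h
  rw [discrim] at this
  nlinarith

/-- continuity of circle means -/
theorem cont_mean {G : ℍ → ℝ} (hG : Smooth2 G) (z : ℍ) {r₀ : ℝ} (h1 : r₀ < 1) :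
    ContinuousOn (fun r : ℝ => ∫ θ in (-Real.pi)..Real.pi, fc G (cay z (r * ee θ))) (Icc 0 r₀) := by
  have hd : DifferentiableOn ℂ (cay z) DD := fun w hw =>
    (hasDerivAt_cay z hw).differentiableAt.differentiableWithinAt
  have hG' : ContDiffOn ℝ 2 (fc G ∘ cay z) DD :=
    (lapl_comp isOpen_DD isOpen_HH hd hG (fun w hw => cay_mem z hw) (z := 0) (by rw [DD]; simp)).1
  intro r hr
  have := (deriv_P hG' (s := r) (by rw [abs_of_nonneg hr.1]; exact hr.2.trans_lt h1)).continuousAt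
  exact this.continuousWithinAt

theorem cont_circle {G : ℍ → ℝ} (hG : Smooth2 G) (z : ℍ) {r : ℝ} (h0 : 0 ≤ r) (h1 : r < 1) :
    Continuous fun θ : ℝ => fc G (cay z (r * ee θ)) := by
  have ce := continuous_ee
  have hc1 : ContinuousOn (fun w : ℂ => fc G (cay z w)) DD := by
    refine (contOn_fc hG).comp (fun w hw => (hasDerivAt_cay z hw).continuousAt.continuousWithinAt)
      fun w hw => cay_mem z hw
  exact hc1.comp_continuous (f := fun θ : ℝ => (r : ℂ) * ee θ) (by fun_prop)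
    fun θ => ee_mem (by rw [abs_of_nonneg h0]; exact h1) θ

theorem cont_Sph (s : ℝ) {r₀ : ℝ} (h1 : r₀ < 1) : ContinuousOn (Sph s) (Icc 0 r₀) := by
  have h := cont_mean (smooth_imp s) UpperHalfPlane.I h1
  refine h.congr fun r hr => ?_
  have := mean_eq (smooth_imp s) (hyp_imp s) UpperHalfPlane.I hr.1 (hr.2.trans_lt h1)
  simp only
  rw [this]
  simp [imp]

theorem Sph_ge' {s ϑ r : ℝ} (hϑ : 0 ≤ ϑ) (hϑ2 : ϑ ≤ 1 / 2) (hs : 1 / 2 + ϑ ≤ s) (h0 : 1 / 2 ≤ r) (h1 : r < 1) :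
    (1 - r ^ 2) ^ (1 / 2 - ϑ) ≤ Sph s r := by
  have hpi := Real.pi_gt_three
  have ce := continuous_ee
  have hη0 : 0 < 1 - r ^ 2 := by nlinarith
  have hr0 : 0 < 1 - r := by linarith
  have hc0 : ∀ θ : ℝ, 0 < ‖1 - (r : ℂ) * ee θ‖ := by
    intro θ
    rw [norm_pos_iff]
    exact one_sub_ne (ee_mem (by rw [abs_of_nonneg (by linarith)]; exact h1) θ)
  have hcont : Continuous fun θ : ℝ => ((1 - r ^ 2) / ‖1 - (r : ℂ) * ee θ‖ ^ 2) ^ s := by
    refine Continuous.rpow_const ?_ fun θ => Or.inl ?_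
    · refine Continuous.div continuous_const (by fun_prop) fun θ => ?_
      exact (pow_pos (hc0 θ) 2).ne'
    · exact (div_pos hη0 (pow_pos (hc0 θ) 2)).ne'
  have hpt : ∀ θ ∈ Icc (-(1 - r)) (1 - r), (3 / 4 / (1 - r)) ^ (1 / 2 + ϑ) ≤
      ((1 - r ^ 2) / ‖1 - (r : ℂ) * ee θ‖ ^ 2) ^ s := by
    intro θ hθ
    have hcos := Real.one_sub_sq_div_two_le_cos (x := θ)
    have hc1 : ‖1 - (r : ℂ) * ee θ‖ ^ 2 ≤ 2 * (1 - r) ^ 2 := by
      rw [norm_one_sub]
      have h3 : θ ^ 2 ≤ (1 - r) ^ 2 := by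
        rw [← sq_abs θ]
        have : |θ| ≤ 1 - r := abs_le.2 hθ
        have := abs_nonneg θ
        nlinarith
      nlinarith
    have h4 : 3 / 4 / (1 - r) ≤ (1 - r ^ 2) / ‖1 - (r : ℂ) * ee θ‖ ^ 2 := by
      have hc2 := pow_pos (hc0 θ) 2
      rw [div_le_div_iff₀ hr0 hc2]
      nlinarith
    have h5 : 1 ≤ 3 / 4 / (1 - r) := by
      rw [le_div_iff₀ hr0]
      linarith
    calc (3 / 4 / (1 - r)) ^ (1 / 2 + ϑ) ≤ (3 / 4 / (1 - r)) ^ s := Real.rpow_le_rpow_of_exponent_le h5 hs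
      _ ≤ _ := Real.rpow_le_rpow (by linarith) h4 (by linarith)
  calc (1 - r ^ 2) ^ (1 / 2 - ϑ) ≤ ∫ θ in (-(1 - r))..(1 - r), (3 / 4 / (1 - r)) ^ (1 / 2 + ϑ) := by
        rw [intervalIntegral.integral_const, smul_eq_mul, Real.div_rpow (by norm_num) hr0.le]
        have h6 : (1 - r ^ 2) ^ (1 / 2 - ϑ) ≤ (2 * (1 - r)) ^ (1 / 2 - ϑ) :=
          Real.rpow_le_rpow hη0.le (by nlinarith) (by linarith)
        have h7 : (2 * (1 - r)) ^ (1 / 2 - ϑ) = 2 ^ (1 / 2 - ϑ) * (1 - r) ^ (1 / 2 - ϑ) :=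
          Real.mul_rpow (by norm_num) hr0.le
        have h8 : (2 : ℝ) ^ (1 / 2 - ϑ) ≤ 2 ^ (1 / 2 : ℝ) :=
          Real.rpow_le_rpow_of_exponent_le (by norm_num) (by linarith)
        have h9 : (2 : ℝ) ^ (1 / 2 : ℝ) ≤ 3 / 2 := by
          rw [← Real.sqrt_eq_rpow]
          rw [Real.sqrt_le_left (by norm_num)]
          norm_num
        have h10 : (3 / 4 : ℝ) ≤ (3 / 4 : ℝ) ^ (1 / 2 + ϑ) := by
          calc (3 / 4 : ℝ) = (3 / 4 : ℝ) ^ (1 : ℝ) := (Real.rpow_one _).symm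
            _ ≤ _ := Real.rpow_le_rpow_of_exponent_ge (by norm_num) (by norm_num) (by linarith)
        have h11 : (1 - r) * ((1 - r) ^ (1 / 2 + ϑ))⁻¹ = (1 - r) ^ (1 / 2 - ϑ) := by
          rw [← Real.rpow_neg hr0.le]
          nth_rewrite 1 [← Real.rpow_one (1 - r)]
          rw [← Real.rpow_add hr0]
          congr 1
          ring
        have h12 : 0 < (1 - r) ^ (1 / 2 - ϑ) := Real.rpow_pos_of_pos hr0 _
        calc (1 - r ^ 2) ^ (1 / 2 - ϑ) ≤ 3 / 2 * (1 - r) ^ (1 / 2 - ϑ) := by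
              rw [h7] at h6
              nlinarith
          _ ≤ 2 * (3 / 4) ^ (1 / 2 + ϑ) * (1 - r) ^ (1 / 2 - ϑ) := by
              have : (3 / 2 : ℝ) ≤ 2 * (3 / 4) ^ (1 / 2 + ϑ) := by linarith
              gcongr
          _ = _ := by
              rw [← h11]
              ring
    _ ≤ ∫ θ in (-(1 - r))..(1 - r), ((1 - r ^ 2) / ‖1 - (r : ℂ) * ee θ‖ ^ 2) ^ s := by
        refine intervalIntegral.integral_mono_on (by linarith) ?_ (hcont.intervalIntegrable _ _) hpt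
        exact intervalIntegrable_const
    _ ≤ ∫ θ in (-Real.pi)..Real.pi, ((1 - r ^ 2) / ‖1 - (r : ℂ) * ee θ‖ ^ 2) ^ s := by
        refine intervalIntegral.integral_mono_interval (by linarith) (by linarith) (by linarith) ?_
          (hcont.intervalIntegrable _ _)
        refine Filter.Eventually.of_forall fun θ => ?_
        have := hc0 θ
        show (0 : ℝ) ≤ _
        positivity
    _ = Sph s r := rfl

/-- the radius in the disc -/
noncomputable def rr (U : ℝ) : ℝ := Real.sqrt (1 - 1 / U)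

/-- the Selberg transform of the characteristic function of the ball -/
noncomputable def hT (U s : ℝ) : ℝ := ∫ r in (0 : ℝ)..rr U, 4 * r / (1 - r ^ 2) ^ 2 * Sph s r

theorem rr_sq {U : ℝ} (hU : 1 ≤ U) : 1 - rr U ^ 2 = 1 / U := by
  have hU0 : 0 < U := by linarith
  have h1 : 0 ≤ 1 - 1 / U := by
    rw [sub_nonneg, div_le_one hU0]
    exact hU
  rw [rr, Real.sq_sqrt h1]
  ring

theorem rr_lt {U : ℝ} (hU : 1 ≤ U) : rr U < 1 := by
  have hU0 : 0 < U := by linarith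
  rw [rr, Real.sqrt_lt' one_pos]
  have : 0 < 1 / U := by positivity
  linarith

theorem rr_nonneg (U : ℝ) : 0 ≤ rr U := Real.sqrt_nonneg _

theorem cont_wt {r₀ : ℝ} (h1 : r₀ < 1) : ContinuousOn (fun r : ℝ => 4 * r / (1 - r ^ 2) ^ 2) (Icc 0 r₀) := by
  refine ContinuousOn.div (by fun_prop) (by fun_prop) fun r hr => ?_
  have h2 : r < 1 := hr.2.trans_lt h1
  have : 0 < 1 - r ^ 2 := by nlinarith [hr.1]
  positivity

theorem integral_wt {U : ℝ} (hU : 1 ≤ U) : ∫ r in (0 : ℝ)..rr U, 4 * r / (1 - r ^ 2) ^ 2 = 2 * (U - 1) := by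
  have hlt := rr_lt hU
  have h0 := rr_nonneg U
  have hU0 : 0 < U := by linarith
  have hd : ∀ x ∈ uIcc 0 (rr U), HasDerivAt (fun r : ℝ => 2 / (1 - r ^ 2)) (4 * x / (1 - x ^ 2) ^ 2) x := by
    intro x hx
    rw [uIcc_of_le h0] at hx
    have h2 : x < 1 := hx.2.trans_lt hlt
    have h5 : 1 - x ^ 2 ≠ 0 := by nlinarith [hx.1]
    have h3 : HasDerivAt (fun r : ℝ => 1 - r ^ 2) (-(2 * x)) x := by
      simpa using ((hasDerivAt_id x).pow 2).const_sub 1
    have h4 := (h3.inv h5).const_mul 2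
    simp only [← div_eq_mul_inv, Pi.inv_apply] at h4
    refine h4.congr_deriv ?_
    field_simp
    ring
  rw [intervalIntegral.integral_eq_sub_of_hasDerivAt hd]
  · rw [rr_sq hU]
    field_simp
    ring
  · refine ContinuousOn.intervalIntegrable ?_
    rw [uIcc_of_le h0]
    exact cont_wt hlt

theorem hT_ge {U s ϑ : ℝ} (hU : 6 ≤ U) (hϑ : 0 ≤ ϑ) (hϑ2 : ϑ ≤ 1 / 2) (hs : 1 / 2 + ϑ ≤ s) :
    U ^ (1 / 2 + ϑ) ≤ hT U s := by
  have hU1 : 1 ≤ U := by linarith
  have hU0 : 0 < U := by linarith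
  have hlt := rr_lt hU1
  have h0 := rr_nonneg U
  have hhalf : 1 / 2 ≤ rr U := by
    rw [rr]
    apply Real.le_sqrt_of_sq_le
    have : 1 / U ≤ 1 / 6 := by gcongr
    linarith
  have hpos : ∀ x ∈ Icc (1 / 2) (rr U), 0 < 1 - x ^ 2 := by
    intro x hx
    have h2 : x < 1 := hx.2.trans_lt hlt
    nlinarith [hx.1]
  -- the primitive
  have hd : ∀ x ∈ uIcc (1 / 2) (rr U), HasDerivAt (fun r : ℝ => 2 / (1 / 2 + ϑ) * (1 - r ^ 2) ^ (-(1 / 2 + ϑ)))
      (4 * x / (1 - x ^ 2) ^ 2 * (1 - x ^ 2) ^ (1 / 2 - ϑ)) x := by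
    intro x hx
    rw [uIcc_of_le hhalf] at hx
    have h5 := hpos x hx
    have h3 : HasDerivAt (fun r : ℝ => 1 - r ^ 2) (-(2 * x)) x := by
      simpa using ((hasDerivAt_id x).pow 2).const_sub 1
    have h4 := (h3.rpow_const (p := -(1 / 2 + ϑ)) (Or.inl h5.ne')).const_mul (2 / (1 / 2 + ϑ))
    refine h4.congr_deriv ?_
    have h6 : (1 - x ^ 2) ^ (-(1 / 2 + ϑ) - 1) = (1 - x ^ 2) ^ (1 / 2 - ϑ) / (1 - x ^ 2) ^ 2 := by
      rw [eq_div_iff (by positivity), ← Real.rpow_natCast (1 - x ^ 2) 2, ← Real.rpow_add h5]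
      congr 1
      push_cast
      ring
    rw [h6]
    field_simp
    ring
  have hint : ∫ x in (1 / 2)..(rr U), 4 * x / (1 - x ^ 2) ^ 2 * (1 - x ^ 2) ^ (1 / 2 - ϑ) =
      2 / (1 / 2 + ϑ) * (U ^ (1 / 2 + ϑ) - (4 / 3) ^ (1 / 2 + ϑ)) := by
    rw [intervalIntegral.integral_eq_sub_of_hasDerivAt hd]
    · rw [rr_sq hU1, one_div U, Real.inv_rpow hU0.le, Real.rpow_neg hU0.le, inv_inv]
      have : (1 - (1 / 2 : ℝ) ^ 2) = (4 / 3)⁻¹ := by norm_num
      rw [this, Real.inv_rpow (by norm_num), Real.rpow_neg (by norm_num), inv_inv]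
      ring
    · refine ContinuousOn.intervalIntegrable ?_
      rw [uIcc_of_le hhalf]
      refine ContinuousOn.mul ((cont_wt hlt).mono (Icc_subset_Icc_left (by norm_num))) ?_
      exact ContinuousOn.rpow_const (by fun_prop) fun x hx => Or.inl (hpos x hx).ne'
  have h7 : 2 * (4 / 3 : ℝ) ^ (1 / 2 + ϑ) ≤ U ^ (1 / 2 + ϑ) := by
    have h8 : (4 / 3 * 4 : ℝ) ^ (1 / 2 + ϑ) ≤ U ^ (1 / 2 + ϑ) :=
      Real.rpow_le_rpow (by norm_num) (by linarith) (by linarith)
    have h9 : (2 : ℝ) ≤ 4 ^ (1 / 2 + ϑ) := by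
      calc (2 : ℝ) = 4 ^ (1 / 2 : ℝ) := by
            rw [← Real.sqrt_eq_rpow, show (4 : ℝ) = 2 ^ 2 by norm_num, Real.sqrt_sq (by norm_num)]
        _ ≤ _ := Real.rpow_le_rpow_of_exponent_le (by norm_num) (by linarith)
    rw [Real.mul_rpow (by norm_num) (by norm_num)] at h8
    have h10 : 0 < (4 / 3 : ℝ) ^ (1 / 2 + ϑ) := by positivity
    nlinarith
  have hUp : 0 < U ^ (1 / 2 + ϑ) := by positivity
  have hs' := cont_Sph s hlt
  have hw := cont_wt hlt
  calc U ^ (1 / 2 + ϑ) ≤ 2 / (1 / 2 + ϑ) * (U ^ (1 / 2 + ϑ) - (4 / 3) ^ (1 / 2 + ϑ)) := by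
        have h11 : 2 ≤ 2 / (1 / 2 + ϑ) := by
          rw [le_div_iff₀ (by linarith)]
          linarith
        have h12 : 0 ≤ U ^ (1 / 2 + ϑ) - (4 / 3) ^ (1 / 2 + ϑ) := by
          have : 0 < (4 / 3 : ℝ) ^ (1 / 2 + ϑ) := by positivity
          linarith
        nlinarith
    _ = ∫ x in (1 / 2)..(rr U), 4 * x / (1 - x ^ 2) ^ 2 * (1 - x ^ 2) ^ (1 / 2 - ϑ) := hint.symm
    _ ≤ ∫ x in (1 / 2)..(rr U), 4 * x / (1 - x ^ 2) ^ 2 * Sph s x := by
        refine intervalIntegral.integral_mono_on hhalf ?_ ?_ ?_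
        · refine ContinuousOn.intervalIntegrable ?_
          rw [uIcc_of_le hhalf]
          refine ContinuousOn.mul ((cont_wt hlt).mono (Icc_subset_Icc_left (by norm_num))) ?_
          exact ContinuousOn.rpow_const (by fun_prop) fun x hx => Or.inl (hpos x hx).ne'
        · refine ContinuousOn.intervalIntegrable ?_
          rw [uIcc_of_le hhalf]
          exact (hw.mul hs').mono (Icc_subset_Icc_left (by norm_num))
        · intro x hx
          have h13 := hpos x hx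
          have h14 := hx.1
          have := Sph_ge' hϑ hϑ2 hs hx.1 (hx.2.trans_lt hlt)
          have h15 : 0 ≤ 4 * x / (1 - x ^ 2) ^ 2 := by
            have : 0 ≤ x := by linarith
            positivity
          exact mul_le_mul_of_nonneg_left this h15
    _ ≤ hT U s := by
        rw [hT]
        refine intervalIntegral.integral_mono_interval (by norm_num) hhalf le_rfl ?_ ?_
        · refine (ae_restrict_iff' measurableSet_Ioc).2 (Filter.Eventually.of_forall fun r hr => ?_)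
          have h2 : r < 1 := hr.2.trans_lt hlt
          have h3 : 0 < 1 - r ^ 2 := by nlinarith [hr.1]
          have h4 := hr.1.le
          have h5 : 0 ≤ Sph s r := by
            rw [Sph]
            refine intervalIntegral.integral_nonneg (by linarith [Real.pi_pos]) fun θ _ => ?_
            positivity
          show (0 : ℝ) ≤ _
          positivity
        · refine ContinuousOn.intervalIntegrable ?_
          rw [uIcc_of_le h0]
          exact hw.mul hs'

/-- **The basic inequality at an exceptional place** -/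
theorem exc_real {J : Type*} (I : Finset J) (g : J → ℍ → ℝ) (s : J → ℝ) (hg : ∀ j ∈ I, Smooth2 (g j))
    (hlap : ∀ j ∈ I, ∀ u, hyp (g j) u = -(s j * (1 - s j)) * g j u) {U : ℝ} (hU : 1 ≤ U)
    (hpos : ∀ j ∈ I, 0 < hT U (s j)) (z : ℍ) :
    ENNReal.ofReal ((∑ j ∈ I, g j z) ^ 2) ≤ ENNReal.ofReal (4 * Real.pi * U) *
      ∫⁻ u in Metric.closedBall z (rad U), ENNReal.ofReal ((∑ j ∈ I, (hT U (s j))⁻¹ * g j u) ^ 2) := by
  have hlt := rr_lt hU
  have h0 := rr_nonneg U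
  have hpi := Real.pi_pos
  set G : ℍ → ℝ := fun u => ∑ j ∈ I, (hT U (s j))⁻¹ * g j u with hGdef
  have hfc : fc G = fun z => ∑ j ∈ I, (hT U (s j))⁻¹ * fc (g j) z := rfl
  have hG : Smooth2 G := by
    rw [Smooth2, hfc]
    exact ContDiffOn.sum fun j hj => contDiffOn_const.mul (hg j hj)
  have hmean : ∀ r ∈ Icc 0 (rr U), ∫ θ in (-Real.pi)..Real.pi, fc G (cay z (r * ee θ)) =
      ∑ j ∈ I, (hT U (s j))⁻¹ * (Sph (s j) r * g j z) := by
    intro r hr
    have hr1 := hr.2.trans_lt hlt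
    rw [hfc]
    simp only
    rw [intervalIntegral.integral_finsetSum]
    · refine Finset.sum_congr rfl fun j hj => ?_
      rw [intervalIntegral.integral_const_mul, mean_eq (hg j hj) (hlap j hj) z hr.1 hr1]
    · intro j hj
      exact ((cont_circle (hg j hj) z hr.1 hr1).const_mul _).intervalIntegrable _ _
  have hsum : ∫ r in (0 : ℝ)..rr U, 4 * r / (1 - r ^ 2) ^ 2 *
      (∫ θ in (-Real.pi)..Real.pi, fc G (cay z (r * ee θ))) = ∑ j ∈ I, g j z := by
    have e1 : ∫ r in (0 : ℝ)..rr U, 4 * r / (1 - r ^ 2) ^ 2 *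
        (∫ θ in (-Real.pi)..Real.pi, fc G (cay z (r * ee θ))) =
        ∫ r in (0 : ℝ)..rr U, ∑ j ∈ I, (hT U (s j))⁻¹ * g j z * (4 * r / (1 - r ^ 2) ^ 2 * Sph (s j) r) := by
      refine intervalIntegral.integral_congr fun r hr => ?_
      rw [uIcc_of_le h0] at hr
      show 4 * r / (1 - r ^ 2) ^ 2 * (∫ θ in (-Real.pi)..Real.pi, fc G (cay z (r * ee θ))) = _
      rw [hmean r hr, Finset.mul_sum]
      refine Finset.sum_congr rfl fun j _ => ?_
      ring
    rw [e1, intervalIntegral.integral_finsetSum]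
    · refine Finset.sum_congr rfl fun j hj => ?_
      rw [intervalIntegral.integral_const_mul, ← hT]
      have := hpos j hj
      field_simp
    · intro j hj
      refine ContinuousOn.intervalIntegrable ?_
      rw [uIcc_of_le h0]
      exact continuousOn_const.mul ((cont_wt hlt).mul (cont_Sph (s j) hlt))
  have hwn : ∀ x ∈ Icc 0 (rr U), 0 ≤ 4 * x / (1 - x ^ 2) ^ 2 := by
    intro x hx
    have := hx.1
    positivity
  have hcm := cont_mean hG z hlt
  have cs1 := cs_on h0 (cont_wt hlt) hcm hwn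
  rw [hsum, integral_wt hU] at cs1
  -- the square of the mean
  have hsq : ∀ x ∈ Icc 0 (rr U), (∫ θ in (-Real.pi)..Real.pi, fc G (cay z (x * ee θ))) ^ 2 ≤
      2 * Real.pi * ∫ θ in (-Real.pi)..Real.pi, fc G (cay z (x * ee θ)) ^ 2 := fun x hx =>
    cs_one (cont_circle hG z hx.1 (hx.2.trans_lt hlt))
  have key := polar_le hG z hlt (ρ := rad U) fun w hw hw2 => dist_rad hU z w hw hw2
  have e2 : ENNReal.ofReal (∫ r in (0 : ℝ)..rr U, 4 * r / (1 - r ^ 2) ^ 2 *
      (∫ θ in (-Real.pi)..Real.pi, fc G (cay z (r * ee θ))) ^ 2) ≤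
      ENNReal.ofReal (2 * Real.pi) * ∫⁻ r in Ioo 0 (rr U), ENNReal.ofReal (4 * r / (1 - r ^ 2) ^ 2) *
        ENNReal.ofReal (∫ θ in (-Real.pi)..Real.pi, fc G (cay z (r * ee θ)) ^ 2) := by
    rw [intervalIntegral.integral_of_le h0, integral_Ioc_eq_integral_Ioo, ofReal_integral_eq_lintegral_ofReal]
    · rw [← lintegral_const_mul' _ _ ENNReal.ofReal_ne_top]
      refine setLIntegral_mono' measurableSet_Ioo fun r hr => ?_
      have hr' := Ioo_subset_Icc_self hr
      have h3 := hwn r hr'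
      have h4 := hsq r hr'
      rw [← ENNReal.ofReal_mul h3, ← ENNReal.ofReal_mul (by positivity)]
      apply ENNReal.ofReal_le_ofReal
      calc _ ≤ 4 * r / (1 - r ^ 2) ^ 2 * (2 * Real.pi * ∫ θ in (-Real.pi)..Real.pi, fc G (cay z (r * ee θ)) ^ 2) := by
            gcongr
        _ = _ := by ring
    · exact (((cont_wt hlt).mul (hcm.pow 2)).integrableOn_Icc).mono_set Ioo_subset_Icc_self
    · refine (ae_restrict_iff' measurableSet_Ioo).2 (Filter.Eventually.of_forall fun r hr => ?_)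
      have h3 := hwn r (Ioo_subset_Icc_self hr)
      show (0 : ℝ) ≤ _
      positivity
  calc ENNReal.ofReal ((∑ j ∈ I, g j z) ^ 2) ≤ ENNReal.ofReal (2 * (U - 1) *
        ∫ r in (0 : ℝ)..rr U, 4 * r / (1 - r ^ 2) ^ 2 *
      (∫ θ in (-Real.pi)..Real.pi, fc G (cay z (r * ee θ))) ^ 2) := ENNReal.ofReal_le_ofReal cs1
    _ = ENNReal.ofReal (2 * (U - 1)) * ENNReal.ofReal (∫ r in (0 : ℝ)..rr U, 4 * r / (1 - r ^ 2) ^ 2 *
      (∫ θ in (-Real.pi)..Real.pi, fc G (cay z (r * ee θ))) ^ 2) := ENNReal.ofReal_mul (by linarith)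
    _ ≤ ENNReal.ofReal (2 * U) * (ENNReal.ofReal (2 * Real.pi) *
        ∫⁻ u in Metric.closedBall z (rad U), ENNReal.ofReal (G u ^ 2)) := by
        refine mul_le_mul' (ENNReal.ofReal_le_ofReal (by linarith)) (e2.trans ?_)
        exact mul_le_mul' le_rfl key
    _ = _ := by
        rw [← mul_assoc, ← ENNReal.ofReal_mul (by linarith)]
        congr 2
        ring

end Pool.Agent.H496
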