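import Mathlib

/-! Null powers on the real quaternions: mean value property and homogeneity. -/

set_option autoImplicit false

namespace Pool.Agent.H496

open MeasureTheory Set
open scoped ENNReal NNReal

/-- the Borel structure of the real quaternions -/
noncomputable instance instMeasurableSpaceQ : MeasurableSpace (Quaternion ℝ) := borel _
instance instBorelSpaceQ : BorelSpace (Quaternion ℝ) := ⟨rfl⟩

/-- A real linear form `l` from the quaternions to the complex numbers which is complex linear
for the complex structure given by the right multiplication with some `X`, `X² = -1`. -/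
def IsNull (l : Quaternion ℝ →ₗ[ℝ] ℂ) : Prop :=
  ∃ X : Quaternion ℝ, X * X = -1 ∧ ∀ x, l (x * X) = Complex.I * l x

theorem re_of_sq {X : Quaternion ℝ} (hX : X * X = -1) : X.re = 0 ∧ ‖X‖ = 1 := by
  have h1 : ‖X‖ * ‖X‖ = 1 := by rw [← norm_mul, hX, norm_neg, norm_one]
  have h2 : ‖X‖ = 1 := by
    have := norm_nonneg X
    nlinarith
  refine ⟨?_, h2⟩
  have e : (X * X).re = -1 := by rw [hX, Quaternion.re_neg, Quaternion.re_one]
  have ei : (X * X).imI = 0 := by rw [hX, Quaternion.imI_neg, Quaternion.imI_one, neg_zero]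
  have ej : (X * X).imJ = 0 := by rw [hX, Quaternion.imJ_neg, Quaternion.imJ_one, neg_zero]
  have ek : (X * X).imK = 0 := by rw [hX, Quaternion.imK_neg, Quaternion.imK_one, neg_zero]
  rw [Quaternion.re_mul] at e
  rw [Quaternion.imI_mul] at ei
  rw [Quaternion.imJ_mul] at ej
  rw [Quaternion.imK_mul] at ek
  by_contra hne
  have h3 : X.imI = 0 := by
    have : 2 * (X.re * X.imI) = 0 := by linear_combination ei
    rcases mul_eq_zero.1 (mul_eq_zero.1 this |>.resolve_left two_ne_zero) with h | h
    · exact absurd h hne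
    · exact h
  have h4 : X.imJ = 0 := by
    have : 2 * (X.re * X.imJ) = 0 := by linear_combination ej
    rcases mul_eq_zero.1 (mul_eq_zero.1 this |>.resolve_left two_ne_zero) with h | h
    · exact absurd h hne
    · exact h
  have h5 : X.imK = 0 := by
    have : 2 * (X.re * X.imK) = 0 := by linear_combination ek
    rcases mul_eq_zero.1 (mul_eq_zero.1 this |>.resolve_left two_ne_zero) with h | h
    · exact absurd h hne
    · exact h
  rw [h3, h4, h5] at e
  nlinarith [sq_nonneg X.re]

/-- the unit `cos θ + sin θ X` -/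
noncomputable def rot (X : Quaternion ℝ) (θ : ℝ) : Quaternion ℝ := (Real.cos θ : Quaternion ℝ) + Real.sin θ • X

theorem norm_rot {X : Quaternion ℝ} (hX : X * X = -1) (θ : ℝ) : ‖rot X θ‖ = 1 := by
  obtain ⟨h1, h2⟩ := re_of_sq hX
  have h3 : Quaternion.normSq X = 1 := by rw [Quaternion.normSq_eq_norm_mul_self, h2, mul_one]
  have h4 : Quaternion.normSq (rot X θ) = 1 := by
    rw [Quaternion.normSq_def'] at h3 ⊢
    simp only [rot, Quaternion.re_add, Quaternion.re_coe, Quaternion.re_smul, smul_eq_mul, Quaternion.imI_add,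
      Quaternion.imI_coe, Quaternion.imI_smul, Quaternion.imJ_add, Quaternion.imJ_coe, Quaternion.imJ_smul,
      Quaternion.imK_add, Quaternion.imK_coe, Quaternion.imK_smul, h1]
    rw [h1] at h3
    nlinarith [Real.sin_sq_add_cos_sq θ]
  rw [Quaternion.normSq_eq_norm_mul_self] at h4
  have := norm_nonneg (rot X θ)
  nlinarith

theorem null_rot {l : Quaternion ℝ →ₗ[ℝ] ℂ} {X : Quaternion ℝ} (hl : ∀ x, l (x * X) = Complex.I * l x)
    (θ : ℝ) (x : Quaternion ℝ) : l (x * rot X θ) = Complex.exp (θ * Complex.I) * l x := by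
  rw [rot, mul_add, map_add, mul_smul_comm, map_smul, hl, Complex.exp_mul_I]
  have e : x * (Real.cos θ : Quaternion ℝ) = Real.cos θ • x := by
    rw [Quaternion.mul_coe_eq_smul]
  rw [e, map_smul]
  simp only [Complex.real_smul, ← Complex.ofReal_cos, ← Complex.ofReal_sin]
  ring

/-- right multiplication with a unit quaternion -/
noncomputable def mulRightIso (u : Quaternion ℝ) (hu : ‖u‖ = 1) : Quaternion ℝ ≃ₗᵢ[ℝ] Quaternion ℝ where
  toFun x := x * u
  invFun x := x * star u
  map_add' x y := add_mul x y u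
  map_smul' c x := by simp
  left_inv x := by
    have : u * star u = 1 := by
      rw [Quaternion.self_mul_star, Quaternion.normSq_eq_norm_mul_self, hu]
      simp
    show x * u * star u = x
    rw [mul_assoc, this, mul_one]
  right_inv x := by
    have : star u * u = 1 := by
      rw [Quaternion.star_mul_self, Quaternion.normSq_eq_norm_mul_self, hu]
      simp
    show x * star u * u = x
    rw [mul_assoc, this, mul_one]
  norm_map' x := by
    show ‖x * u‖ = ‖x‖
    rw [norm_mul, hu, mul_one]

/-- left multiplication with a unit quaternion -/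
noncomputable def mulLeftIso (u : Quaternion ℝ) (hu : ‖u‖ = 1) : Quaternion ℝ ≃ₗᵢ[ℝ] Quaternion ℝ where
  toFun x := u * x
  invFun x := star u * x
  map_add' x y := mul_add u x y
  map_smul' c x := by simp
  left_inv x := by
    have : star u * u = 1 := by
      rw [Quaternion.star_mul_self, Quaternion.normSq_eq_norm_mul_self, hu]
      simp
    show star u * (u * x) = x
    rw [← mul_assoc, this, one_mul]
  right_inv x := by
    have : u * star u = 1 := by
      rw [Quaternion.self_mul_star, Quaternion.normSq_eq_norm_mul_self, hu]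
      simp
    show u * (star u * x) = x
    rw [← mul_assoc, this, one_mul]
  norm_map' x := by
    show ‖u * x‖ = ‖x‖
    rw [norm_mul, hu, one_mul]

theorem continuous_lin (l : Quaternion ℝ →ₗ[ℝ] ℂ) : Continuous l := l.continuous_of_finiteDimensional

theorem integral_null_pow {l : Quaternion ℝ →ₗ[ℝ] ℂ} (hl : IsNull l) {k : ℕ} (hk : k ≠ 0) (ρ : ℝ) :
    ∫ y in Metric.ball (0 : Quaternion ℝ) ρ, l y ^ k = 0 := by
  obtain ⟨X, hX, hlX⟩ := hl
  set θ : ℝ := Real.pi / k with hθ
  have hu := norm_rot hX θ
  have mp := (mulRightIso (rot X θ) hu).measurePreserving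
  have me : MeasurableEmbedding (mulRightIso (rot X θ) hu) :=
    (mulRightIso (rot X θ) hu).toHomeomorph.measurableEmbedding
  have key := mp.setIntegral_preimage_emb me (fun y => l y ^ k) (Metric.ball (0 : Quaternion ℝ) ρ)
  have hpre : (mulRightIso (rot X θ) hu) ⁻¹' Metric.ball (0 : Quaternion ℝ) ρ = Metric.ball (0 : Quaternion ℝ) ρ := by
    rw [LinearIsometryEquiv.preimage_ball]
    simp
  rw [hpre] at key
  have hk' : (k : ℂ) ≠ 0 := by exact_mod_cast hk
  have e : ∀ y, l ((mulRightIso (rot X θ) hu) y) ^ k = -(l y ^ k) := by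
    intro y
    show l (y * rot X θ) ^ k = _
    rw [null_rot hlX, mul_pow, ← Complex.exp_nat_mul]
    have : (k : ℂ) * ((θ : ℂ) * Complex.I) = Real.pi * Complex.I := by
      rw [hθ]
      push_cast
      field_simp
    rw [this, Complex.exp_pi_mul_I]
    ring
  simp_rw [e] at key
  rw [integral_neg] at key
  have : (2 : ℂ) * ∫ y in Metric.ball (0 : Quaternion ℝ) ρ, l y ^ k = 0 := by linear_combination -key
  exact (mul_eq_zero.1 this).resolve_left two_ne_zero

theorem integrableOn_ball_of_continuous {f : Quaternion ℝ → ℂ} (hf : Continuous f) (g : Quaternion ℝ) (ρ : ℝ) :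
    IntegrableOn f (Metric.ball g ρ) :=
  (hf.continuousOn.integrableOn_compact (isCompact_closedBall g ρ)).mono_set Metric.ball_subset_closedBall

theorem integral_null_ball {l : Quaternion ℝ →ₗ[ℝ] ℂ} (hl : IsNull l) (n : ℕ) (g : Quaternion ℝ) (ρ : ℝ) :
    ∫ x in Metric.ball g ρ, l x ^ n = (volume.real (Metric.ball g ρ) : ℂ) * l g ^ n := by
  have hc := continuous_lin l
  have mp : MeasurePreserving (fun y : Quaternion ℝ => g + y) volume volume := measurePreserving_add_left volume g
  have me : MeasurableEmbedding (fun y : Quaternion ℝ => g + y) := (MeasurableEquiv.addLeft g).measurableEmbedding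
  have key := mp.setIntegral_preimage_emb me (fun y => l y ^ n) (Metric.ball g ρ)
  have hpre : (fun y : Quaternion ℝ => g + y) ⁻¹' Metric.ball g ρ = Metric.ball (0 : Quaternion ℝ) ρ := by
    ext y
    simp [Metric.mem_ball]
  have hvol : volume.real (Metric.ball g ρ) = volume.real (Metric.ball (0 : Quaternion ℝ) ρ) := by
    rw [measureReal_def, measureReal_def, Measure.addHaar_ball_center]
  rw [hpre] at key
  rw [← key, hvol]
  simp_rw [map_add, add_comm (l g), add_pow]
  rw [integral_finsetSum]
  · rw [Finset.sum_eq_single 0]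
    · simp
    · intro k _ hk
      rw [integral_mul_const, integral_mul_const, integral_null_pow hl hk, zero_mul, zero_mul]
    · intro h
      simp at h
  · intro k _
    apply integrableOn_ball_of_continuous
    fun_prop

section multi
variable {V : Type*} [Fintype V]

/-- the linear span of the functions `x ↦ ∏_v l_v(x_v)^(n_v)` with null forms `l_v` -/
def harm (n : V → ℕ) : Submodule ℂ ((V → Quaternion ℝ) → ℂ) :=
  Submodule.span ℂ {P | ∃ l : V → (Quaternion ℝ →ₗ[ℝ] ℂ), (∀ v, IsNull (l v)) ∧ P = fun x => ∏ v, l v (x v) ^ n v}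

/-- mean value property on products of balls -/
def MeanValue (P : (V → Quaternion ℝ) → ℂ) : Prop :=
  Continuous P ∧ ∀ (g : V → Quaternion ℝ) (ρ : V → ℝ),
    ∫ x in univ.pi (fun v => Metric.ball (g v) (ρ v)), P x =
      (∏ v, (volume.real (Metric.ball (g v) (ρ v)) : ℂ)) * P g

theorem integrableOn_pi_ball {P : (V → Quaternion ℝ) → ℂ} (hP : Continuous P) (g : V → Quaternion ℝ) (ρ : V → ℝ) :
    IntegrableOn P (univ.pi (fun v => Metric.ball (g v) (ρ v))) :=
  (hP.continuousOn.integrableOn_compact (isCompact_univ_pi fun v => isCompact_closedBall (g v) (ρ v))).mono_set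
    (pi_mono fun v _ => Metric.ball_subset_closedBall)

theorem MeanValue.add {P Q : (V → Quaternion ℝ) → ℂ} (hP : MeanValue P) (hQ : MeanValue Q) :
    MeanValue (P + Q) := by
  refine ⟨hP.1.add hQ.1, fun g ρ => ?_⟩
  have := integral_add (integrableOn_pi_ball hP.1 g ρ) (integrableOn_pi_ball hQ.1 g ρ)
  simp only [Pi.add_apply]
  rw [this, hP.2, hQ.2]
  ring

theorem MeanValue.smul {P : (V → Quaternion ℝ) → ℂ} (hP : MeanValue P) (c : ℂ) : MeanValue (c • P) := by
  refine ⟨continuous_const.mul hP.1, fun g ρ => ?_⟩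
  simp only [Pi.smul_apply, smul_eq_mul]
  rw [integral_const_mul, hP.2]
  ring

theorem MeanValue.zero : MeanValue (0 : (V → Quaternion ℝ) → ℂ) := by
  refine ⟨continuous_const, fun g ρ => ?_⟩
  simp

theorem meanValue_of_mem {n : V → ℕ} {P : (V → Quaternion ℝ) → ℂ} (hP : P ∈ harm n) : MeanValue P := by
  refine Submodule.span_induction ?_ MeanValue.zero (fun x y _ _ hx hy => hx.add hy) (fun c x _ hx => hx.smul c) hP
  rintro P ⟨l, hl, rfl⟩
  have hc := fun v => continuous_lin (l v)
  refine ⟨by fun_prop, fun g ρ => ?_⟩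
  have e : (volume : Measure (V → Quaternion ℝ)).restrict (univ.pi (fun v => Metric.ball (g v) (ρ v))) =
      Measure.pi fun v => (volume : Measure (Quaternion ℝ)).restrict (Metric.ball (g v) (ρ v)) := by
    rw [volume_pi, Measure.restrict_pi_pi]
  rw [e, integral_fintype_prod_eq_prod (𝕜 := ℂ) (fun v x => l v x ^ n v), ← Finset.prod_mul_distrib]
  refine Finset.prod_congr rfl fun v _ => ?_
  exact integral_null_ball (hl v) (n v) (g v) (ρ v)

theorem meanValue_sum {ι : Type*} (s : Finset ι) {P : ι → (V → Quaternion ℝ) → ℂ} (hP : ∀ i ∈ s, MeanValue (P i)) :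
    MeanValue (∑ i ∈ s, P i) := by
  classical
  induction s using Finset.induction_on with
  | empty => simpa using MeanValue.zero
  | insert i s hi ih =>
    rw [Finset.sum_insert hi]
    exact (hP i (Finset.mem_insert_self i s)).add (ih fun j hj => hP j (Finset.mem_insert_of_mem hj))

/-- homogeneity -/
theorem harm_smul {n : V → ℕ} {P : (V → Quaternion ℝ) → ℂ} (hP : P ∈ harm n) (r : V → ℝ) (x : V → Quaternion ℝ) :
    P (fun v => r v • x v) = (∏ v, (r v : ℂ) ^ n v) * P x := by
  refine Submodule.span_induction (p := fun P _ => P (fun v => r v • x v) = (∏ v, (r v : ℂ) ^ n v) * P x)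
    ?_ (by simp) (fun P Q _ _ hP hQ => ?_) (fun c P _ hP => ?_) hP
  · rintro P ⟨l, hl, rfl⟩
    simp only [map_smul, Complex.real_smul, mul_pow, Finset.prod_mul_distrib]
  · simp only [Pi.add_apply, hP, hQ]
    ring
  · simp only [Pi.smul_apply, smul_eq_mul, hP]
    ring

/-- the submean inequality -/
theorem MeanValue.le {P : (V → Quaternion ℝ) → ℂ} (hP : MeanValue P) (g : V → Quaternion ℝ) {ρ : V → ℝ}
    (hρ : ∀ v, 0 < ρ v) :
    (∏ v, volume (Metric.ball (g v) (ρ v))) * ENNReal.ofReal (‖P g‖ ^ 2) ≤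
      ∫⁻ x in univ.pi (fun v => Metric.ball (g v) (ρ v)), ENNReal.ofReal (‖P x‖ ^ 2) := by
  set B : Set (V → Quaternion ℝ) := univ.pi (fun v => Metric.ball (g v) (ρ v)) with hB
  have hvol : volume B = ∏ v, volume (Metric.ball (g v) (ρ v)) := by rw [hB, volume_pi, Measure.pi_pi]
  have hfin : ∀ v, volume (Metric.ball (g v) (ρ v)) ≠ ∞ := fun v => measure_ball_lt_top.ne
  have hpos : ∀ v, volume (Metric.ball (g v) (ρ v)) ≠ 0 := fun v => (Metric.measure_ball_pos volume _ (hρ v)).ne'
  have hBfin : volume B ≠ ∞ := by rw [hvol]; exact ENNReal.prod_ne_top fun v _ => hfin v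
  have hBpos : volume B ≠ 0 := by rw [hvol]; exact Finset.prod_ne_zero_iff.2 fun v _ => hpos v
  rw [← hvol]
  have h1 := hP.2 g ρ
  rw [← hB] at h1
  have hreal : (∏ v, (volume.real (Metric.ball (g v) (ρ v)) : ℂ)) = (volume.real B : ℂ) := by
    rw [measureReal_def, hvol, ENNReal.toReal_prod]
    push_cast
    rfl
  rw [hreal] at h1
  -- Cauchy-Schwarz via the norm
  have h2 : volume B * ENNReal.ofReal ‖P g‖ ≤ ∫⁻ x in B, ENNReal.ofReal ‖P x‖ := by
    have h3 : ‖(volume.real B : ℂ) * P g‖ = volume.real B * ‖P g‖ := by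
      rw [norm_mul, Complex.norm_real, Real.norm_of_nonneg measureReal_nonneg]
    have h4 : ENNReal.ofReal (volume.real B * ‖P g‖) ≤ ∫⁻ x in B, ‖P x‖ₑ := by
      rw [← h3, ← h1]
      have := enorm_integral_le_lintegral_enorm (μ := volume.restrict B) P
      rwa [← ofReal_norm] at this
    rw [ENNReal.ofReal_mul measureReal_nonneg, measureReal_def, ENNReal.ofReal_toReal hBfin] at h4
    simpa only [ofReal_norm] using h4
  have hPc := hP.1
  have h5 : (∫⁻ x in B, ENNReal.ofReal ‖P x‖) ^ 2 ≤ volume B * ∫⁻ x in B, ENNReal.ofReal (‖P x‖ ^ 2) := by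
    have hm : AEMeasurable (fun x => ENNReal.ofReal ‖P x‖) (volume.restrict B) := by
      have := hPc.measurable
      fun_prop
    have := ENNReal.lintegral_mul_le_Lp_mul_Lq (volume.restrict B) Real.HolderConjugate.two_two
      (f := fun _ => 1) (g := fun x => ENNReal.ofReal ‖P x‖) aemeasurable_const hm
    simp only [Pi.mul_apply, one_mul, ENNReal.one_rpow, lintegral_const, Measure.restrict_apply_univ] at this
    have h6 := pow_le_pow_left' this 2
    refine h6.trans (le_of_eq ?_)
    rw [mul_pow, ← ENNReal.rpow_natCast, ← ENNReal.rpow_mul, ← ENNReal.rpow_natCast, ← ENNReal.rpow_mul]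
    norm_num
  have h7 : volume B * (volume B * ENNReal.ofReal (‖P g‖ ^ 2)) ≤
      volume B * ∫⁻ x in B, ENNReal.ofReal (‖P x‖ ^ 2) := by
    refine le_trans (le_of_eq ?_) ((pow_le_pow_left' h2 2).trans h5)
    rw [ENNReal.ofReal_pow (norm_nonneg _)]
    ring
  exact (ENNReal.mul_le_mul_iff_right hBpos hBfin).1 h7

end multi

end Pool.Agent.H496
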