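import Mathlib

/-! The norm of an element of a totally real field. -/

set_option autoImplicit false

namespace Pool.Agent.H496

open Function
open scoped NumberField

variable {K : Type*} [Field K] [NumberField K] {W V : Type*} [Fintype W] [Fintype V]

/-- a real embedding as a complex one over `ℚ` -/
noncomputable def toC (ψ : K →+* ℝ) : K →ₐ[ℚ] ℂ := (Complex.ofRealHom.comp ψ).toRatAlgHom

theorem toC_apply (ψ : K →+* ℝ) (x : K) : toC ψ x = (ψ x : ℂ) := rfl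

theorem abs_norm_eq (ψ : W → K →+* ℝ) (φ : V → K →+* ℝ) (hinj : Injective (Sum.elim ψ φ))
    (hcard : Fintype.card W + Fintype.card V = Module.finrank ℚ K) (x : K) :
    |((Algebra.norm ℚ x : ℚ) : ℝ)| = (∏ w, |ψ w x|) * ∏ v, |φ v x| := by
  classical
  have h1 := Algebra.norm_eq_prod_embeddings ℚ ℂ x
  have hbij : Bijective (fun i : W ⊕ V => toC (Sum.elim ψ φ i)) := by
    rw [Fintype.bijective_iff_injective_and_card]
    constructor
    · intro i j h
      apply hinj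
      ext y
      have := DFunLike.congr_fun h y
      simp only [toC_apply] at this
      exact_mod_cast this
    · rw [Fintype.card_sum, hcard, AlgHom.card]
  have h2 : ∏ σ : K →ₐ[ℚ] ℂ, σ x = ∏ i : W ⊕ V, toC (Sum.elim ψ φ i) x :=
    (Fintype.prod_bijective _ hbij _ _ fun _ => rfl).symm
  rw [h2, Fintype.prod_sum_type] at h1
  simp only [Sum.elim_inl, Sum.elim_inr, toC_apply] at h1
  have h3 : (((Algebra.norm ℚ x : ℚ) : ℝ) : ℂ) = (((∏ w, ψ w x) * ∏ v, φ v x : ℝ) : ℂ) := by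
    push_cast
    rw [← h1]
    simp
  have h4 : ((Algebra.norm ℚ x : ℚ) : ℝ) = (∏ w, ψ w x) * ∏ v, φ v x := by exact_mod_cast h3
  rw [h4, abs_mul, Finset.abs_prod, Finset.abs_prod]

theorem absNorm_le (ψ : W → K →+* ℝ) (φ : V → K →+* ℝ) (hinj : Injective (Sum.elim ψ φ))
    (hcard : Fintype.card W + Fintype.card V = Module.finrank ℚ K) {𝔞 : Ideal (𝓞 K)} {t : 𝓞 K}
    (ht : t ∈ 𝔞) (ht0 : t ≠ 0) :
    (Ideal.absNorm 𝔞 : ℝ) ≤ (∏ w, |ψ w (t : K)|) * ∏ v, |φ v (t : K)| := by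
  rw [← abs_norm_eq ψ φ hinj hcard]
  have h1 : Ideal.absNorm 𝔞 ∣ Ideal.absNorm (Ideal.span {t}) :=
    Ideal.absNorm_dvd_absNorm_of_le ((Ideal.span_singleton_le_iff_mem _).2 ht)
  rw [Ideal.absNorm_span_singleton] at h1
  have h2 : (Algebra.norm ℤ t).natAbs ≠ 0 := by
    rw [Int.natAbs_ne_zero]
    exact Algebra.norm_ne_zero_iff.2 ht0
  have h3 := Nat.le_of_dvd (Nat.pos_of_ne_zero h2) h1
  have h4 : (Algebra.norm ℚ (t : K) : ℚ) = ((Algebra.norm ℤ t : ℤ) : ℚ) := (Algebra.coe_norm_int t).symm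
  rw [h4]
  have h5 : ((((Algebra.norm ℤ t : ℤ) : ℚ)) : ℝ) = ((Algebra.norm ℤ t : ℤ) : ℝ) := by push_cast; rfl
  rw [h5, ← Int.cast_abs, Int.abs_eq_natAbs]
  exact_mod_cast h3

end Pool.Agent.H496
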