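import Pool.Agent.H496.A1.Exc

/-! Sub-mean value inequalities for linear combinations of complex valued eigenfunctions. -/

set_option autoImplicit false

namespace Pool.Agent.H496

open Complex MeasureTheory Set Function
open UpperHalfPlane hiding I
open scoped ENNReal NNReal
open Pool.Agent.T2H31

/-- `e` is a `C²` function on the upper half plane with `y² Δ e = - lam e` -/
def Eig (e : ℍ → ℂ) (lam : ℝ) : Prop :=
  ContDiffOn ℝ 2 (fun z : ℂ => e (ofComplex z)) {z | 0 < z.im} ∧
  ∀ z : ℂ, 0 < z.im →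
    (z.im : ℂ) ^ 2 * Laplacian.laplacian (fun z : ℂ => e (ofComplex z)) z = -(lam : ℂ) * e (ofComplex z)

theorem lapl_eq (F : ℂ → ℝ) (z : ℂ) : Laplacian.laplacian F z = lapl F z := by
  rw [InnerProductSpace.laplacian_eq_iteratedFDeriv_complexPlane]
  simp only [iteratedFDeriv_two_apply, lapl]
  rfl

/-- the real linear form `Re (c w)` -/
noncomputable def reC (c : ℂ) : ℂ →L[ℝ] ℝ := Complex.reCLM.comp (ContinuousLinearMap.mul ℝ ℂ c)

theorem reC_apply (c w : ℂ) : reC c w = (c * w).re := rfl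

theorem Eig.re {e : ℍ → ℂ} {lam : ℝ} (h : Eig e lam) (c : ℂ) :
    Smooth2 (fun u => (c * e u).re) ∧ ∀ u, hyp (fun u => (c * e u).re) u = -lam * (c * e u).re := by
  have hfc : fc (fun u => (c * e u).re) = reC c ∘ (fun z : ℂ => e (ofComplex z)) := rfl
  have hsm : Smooth2 (fun u => (c * e u).re) := by
    rw [Smooth2, hfc]
    exact (reC c).contDiff.comp_contDiffOn h.1
  refine ⟨hsm, fun u => ?_⟩
  have hat : ContDiffAt ℝ 2 (fun z : ℂ => e (ofComplex z)) (u : ℂ) :=
    h.1.contDiffAt (isOpen_HH.mem_nhds u.im_pos)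
  rw [hyp, hfc, ← lapl_eq, hat.laplacian_CLM_comp_left]
  have h2 := h.2 u u.im_pos
  simp only [ofComplex_apply, UpperHalfPlane.coe_im] at h2
  rw [comp_apply, reC_apply]
  have e1 : (c * ((u.im : ℂ) ^ 2 * Laplacian.laplacian (fun z : ℂ => e (ofComplex z)) (u : ℂ))).re =
      (c * (-(lam : ℂ) * e u)).re := by rw [h2]
  have e2 : c * ((u.im : ℂ) ^ 2 * Laplacian.laplacian (fun z : ℂ => e (ofComplex z)) (u : ℂ)) =
      ((u.im ^ 2 : ℝ) : ℂ) * (c * Laplacian.laplacian (fun z : ℂ => e (ofComplex z)) (u : ℂ)) := by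
    push_cast
    ring
  have e3 : c * (-(lam : ℂ) * e u) = ((-lam : ℝ) : ℂ) * (c * e u) := by
    push_cast
    ring
  rw [e2, e3, Complex.re_ofReal_mul, Complex.re_ofReal_mul] at e1
  exact e1

theorem Eig.cont {e : ℍ → ℂ} {lam : ℝ} (h : Eig e lam) : Continuous e := by
  have h1 : Continuous fun u => (1 * e u).re := cont_f (h.re 1).1
  have h2 : Continuous fun u => (-Complex.I * e u).re := cont_f (h.re (-Complex.I)).1
  have e1 : e = fun u => (((1 * e u).re : ℝ) : ℂ) + (((-Complex.I * e u).re : ℝ) : ℂ) * Complex.I := by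
    funext u
    apply Complex.ext <;> simp
  rw [e1]
  fun_prop

theorem ofReal_normsq (w : ℂ) : ENNReal.ofReal (‖w‖ ^ 2) = ENNReal.ofReal (w.re ^ 2) + ENNReal.ofReal (w.im ^ 2) := by
  rw [← ENNReal.ofReal_add (sq_nonneg _) (sq_nonneg _), ← Complex.normSq_eq_norm_sq, Complex.normSq_apply]
  congr 1
  ring

/-- the Selberg parameter -/
noncomputable def sp (lam : ℝ) : ℝ := 1 / 2 + Real.sqrt (1 / 4 - lam)

theorem sp_mul {lam : ℝ} (h : lam ≤ 1 / 4) : sp lam * (1 - sp lam) = lam := by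
  have h2 := Real.sq_sqrt (show 0 ≤ 1 / 4 - lam by linarith)
  rw [sp]
  linear_combination -h2

theorem sp_ge {lam ϑ : ℝ} (h : lam ≤ 1 / 4 - ϑ ^ 2) : 1 / 2 + ϑ ≤ sp lam := by
  rw [sp]
  have : ϑ ≤ Real.sqrt (1 / 4 - lam) := by
    apply Real.le_sqrt_of_sq_le
    linarith
  linarith

section
variable {J : Type*} [Fintype J] {e : J → ℍ → ℂ} {lam : J → ℝ} (he : ∀ j, Eig (e j) (lam j))
include he

theorem exc_complex {U : ℝ} (hU : 1 ≤ U) (hlam : ∀ j, lam j ≤ 1 / 4) (hpos : ∀ j, 0 < hT U (sp (lam j)))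
    (c : J → ℂ) (z : ℍ) :
    ENNReal.ofReal (‖∑ j, c j * e j z‖ ^ 2) ≤ ENNReal.ofReal (4 * Real.pi * U) *
      ∫⁻ u in Metric.closedBall z (rad U), ENNReal.ofReal
        (‖∑ j, ((((hT U (sp (lam j)))⁻¹ : ℝ) : ℂ) * c j) * e j u‖ ^ 2) := by
  have key : ∀ d : ℂ, ENNReal.ofReal ((∑ j, (d * c j * e j z).re) ^ 2) ≤ ENNReal.ofReal (4 * Real.pi * U) *
      ∫⁻ u in Metric.closedBall z (rad U), ENNReal.ofReal
        ((∑ j, (hT U (sp (lam j)))⁻¹ * (d * c j * e j u).re) ^ 2) := by
    intro d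
    refine exc_real Finset.univ (fun j u => (d * c j * e j u).re) (fun j => sp (lam j))
      (fun j _ => ((he j).re (d * c j)).1) (fun j _ u => ?_) hU (fun j _ => hpos j) z
    rw [sp_mul (hlam j)]
    exact ((he j).re (d * c j)).2 u
  have hre : ∀ u, (∑ j, ((((hT U (sp (lam j)))⁻¹ : ℝ) : ℂ) * c j) * e j u).re =
      ∑ j, (hT U (sp (lam j)))⁻¹ * (1 * c j * e j u).re := by
    intro u
    rw [Complex.re_sum]
    refine Finset.sum_congr rfl fun j _ => ?_
    rw [mul_assoc, Complex.re_ofReal_mul, one_mul]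
  have him : ∀ u, (∑ j, ((((hT U (sp (lam j)))⁻¹ : ℝ) : ℂ) * c j) * e j u).im =
      ∑ j, (hT U (sp (lam j)))⁻¹ * (-Complex.I * c j * e j u).re := by
    intro u
    rw [Complex.im_sum]
    refine Finset.sum_congr rfl fun j _ => ?_
    rw [mul_assoc, Complex.im_ofReal_mul, mul_assoc]
    simp
  have hre0 : (∑ j, c j * e j z).re = ∑ j, (1 * c j * e j z).re := by
    rw [Complex.re_sum]
    simp
  have him0 : (∑ j, c j * e j z).im = ∑ j, (-Complex.I * c j * e j z).re := by
    rw [Complex.im_sum]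
    refine Finset.sum_congr rfl fun j _ => ?_
    rw [mul_assoc]
    simp
  have hmeas : ∀ d : ℂ, Measurable fun u => ENNReal.ofReal
        ((∑ j, (hT U (sp (lam j)))⁻¹ * (d * c j * e j u).re) ^ 2) := by
    intro d
    have hc := fun j => (he j).cont
    have : Continuous fun u => (∑ j, (hT U (sp (lam j)))⁻¹ * (d * c j * e j u).re) ^ 2 := by fun_prop
    exact this.measurable.ennreal_ofReal
  simp_rw [ofReal_normsq, hre, him, hre0, him0]
  rw [lintegral_add_left (hmeas 1), mul_add]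
  exact add_le_add (key 1) (key (-Complex.I))

theorem loc_complex {L : ℝ} (hL : 1 ≤ L) (c : J → ℂ) (z : ℍ) :
    ENNReal.ofReal (‖∑ j, c j * e j z‖ ^ 2) ≤ ENNReal.ofReal (16 * L) *
      (∫⁻ u in EB z (1 / (2 * Real.sqrt L)), ENNReal.ofReal (‖∑ j, c j * e j u‖ ^ 2)) +
      ENNReal.ofReal (1 / L) * ∫⁻ u in EB z (1 / (2 * Real.sqrt L)), ENNReal.ofReal
        (‖∑ j, ((lam j : ℂ) * c j) * e j u‖ ^ 2) := by
  have hL0 : 0 < L := by linarith
  have hs1 : 1 ≤ Real.sqrt L := Real.one_le_sqrt.2 hL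
  have hs : 0 < Real.sqrt L := by linarith
  have hs2 : Real.sqrt L ^ 2 = L := Real.sq_sqrt hL0.le
  set ρ : ℝ := 1 / (2 * Real.sqrt L) with hρ
  have hρ0 : 0 < ρ := by positivity
  have hρ1 : ρ ≤ 1 / 2 := by
    rw [hρ]
    gcongr
    linarith
  have c1 : 4 / ρ ^ 2 = 16 * L := by
    rw [hρ, div_pow, mul_pow, hs2]
    field_simp
    norm_num
  have c2 : 4 * ρ ^ 2 = 1 / L := by
    rw [hρ, div_pow, mul_pow, hs2]
    field_simp
    norm_num
  have key : ∀ d : ℂ, ENNReal.ofReal ((∑ j, (d * c j * e j z).re) ^ 2) ≤ ENNReal.ofReal (16 * L) *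
      (∫⁻ u in EB z ρ, ENNReal.ofReal ((∑ j, (d * c j * e j u).re) ^ 2)) +
      ENNReal.ofReal (1 / L) * ∫⁻ u in EB z ρ, ENNReal.ofReal ((∑ j, lam j * (d * c j * e j u).re) ^ 2) := by
    intro d
    have hsm : Smooth2 (fun u => ∑ j, (d * c j * e j u).re) := by
      have : fc (fun u => ∑ j, (d * c j * e j u).re) = fun z => ∑ j, fc (fun u => (d * c j * e j u).re) z := rfl
      rw [Smooth2, this]
      exact ContDiffOn.sum fun j _ => ((he j).re (d * c j)).1
    have hh : ∀ u, hyp (fun u => ∑ j, (d * c j * e j u).re) u = -∑ j, lam j * (d * c j * e j u).re := by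
      intro u
      have hfc : fc (fun u => ∑ j, (d * c j * e j u).re) = ∑ j, fc (fun u => (d * c j * e j u).re) := by
        funext z
        simp [fc]
      have hat : ∀ j, ContDiffAt ℝ 2 (fc (fun u => (d * c j * e j u).re)) (u : ℂ) := fun j =>
        ((he j).re (d * c j)).1.contDiffAt (isOpen_HH.mem_nhds u.im_pos)
      have hlin : ∀ s : Finset J, Laplacian.laplacian (∑ j ∈ s, fc (fun u => (d * c j * e j u).re)) (u : ℂ) =
          ∑ j ∈ s, Laplacian.laplacian (fc (fun u => (d * c j * e j u).re)) (u : ℂ) := by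
        classical
        intro s
        induction s using Finset.induction_on with
        | empty =>
          simp only [Finset.sum_empty]
          exact congrFun (InnerProductSpace.laplacian_const (c := (0 : ℝ))) (u : ℂ)
        | insert i s hi ih =>
          rw [Finset.sum_insert hi, Finset.sum_insert hi, ← ih]
          refine (hat i).laplacian_add ?_
          have : (∑ j ∈ s, fc (fun u => (d * c j * e j u).re)) =
            fun z => ∑ j ∈ s, fc (fun u => (d * c j * e j u).re) z := by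
            funext z
            simp
          rw [this]
          exact ContDiffAt.sum fun j _ => hat j
      rw [hyp, hfc, ← lapl_eq, hlin, Finset.mul_sum, ← Finset.sum_neg_distrib]
      refine Finset.sum_congr rfl fun j _ => ?_
      have := ((he j).re (d * c j)).2 u
      rw [hyp, ← lapl_eq] at this
      rw [this]
      ring
    have := local_est hsm z hρ0 hρ1
    rw [c1, c2] at this
    simp_rw [hh, neg_sq] at this
    exact this
  have hre : ∀ u, (∑ j, ((lam j : ℂ) * c j) * e j u).re = ∑ j, lam j * (1 * c j * e j u).re := by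
    intro u
    rw [Complex.re_sum]
    refine Finset.sum_congr rfl fun j _ => ?_
    rw [mul_assoc, Complex.re_ofReal_mul, one_mul]
  have him : ∀ u, (∑ j, ((lam j : ℂ) * c j) * e j u).im = ∑ j, lam j * (-Complex.I * c j * e j u).re := by
    intro u
    rw [Complex.im_sum]
    refine Finset.sum_congr rfl fun j _ => ?_
    rw [mul_assoc, Complex.im_ofReal_mul, mul_assoc]
    simp
  have hre0 : ∀ z, (∑ j, c j * e j z).re = ∑ j, (1 * c j * e j z).re := by
    intro z
    rw [Complex.re_sum]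
    simp
  have him0 : ∀ z, (∑ j, c j * e j z).im = ∑ j, (-Complex.I * c j * e j z).re := by
    intro z
    rw [Complex.im_sum]
    refine Finset.sum_congr rfl fun j _ => ?_
    rw [mul_assoc]
    simp
  have hc := fun j => (he j).cont
  have hmeas : ∀ d : ℂ, Measurable fun u => ENNReal.ofReal ((∑ j, lam j * (d * c j * e j u).re) ^ 2) := by
    intro d
    have : Continuous fun u => (∑ j, lam j * (d * c j * e j u).re) ^ 2 := by fun_prop
    exact this.measurable.ennreal_ofReal
  have hmeas2 : ∀ d : ℂ, Measurable fun u => ENNReal.ofReal ((∑ j, (d * c j * e j u).re) ^ 2) := by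
    intro d
    have : Continuous fun u => (∑ j, (d * c j * e j u).re) ^ 2 := by fun_prop
    exact this.measurable.ennreal_ofReal
  simp_rw [ofReal_normsq, hre, him, hre0, him0]
  rw [lintegral_add_left (hmeas 1), lintegral_add_left (hmeas2 1), mul_add, mul_add]
  calc _ ≤ _ := add_le_add (key 1) (key (-Complex.I))
    _ = _ := by ring

end

end Pool.Agent.H496
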