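import Pool.Agent.H496.A1.Harm

/-! Polar coordinates on products of annuli, and orthonormality. -/

set_option autoImplicit false

namespace Pool.Agent.H496

open MeasureTheory Set Function
open scoped ENNReal NNReal ComplexConjugate

/-- the unit sphere of the quaternions -/
abbrev S3 : Type := Metric.sphere (0 : Quaternion ℝ) 1

/-- its surface measure -/
noncomputable def sph : Measure S3 := (volume : Measure (Quaternion ℝ)).toSphere

noncomputable instance : IsFiniteMeasure sph := by unfold sph; infer_instance

/-- the radial measure `r³ dr` -/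
noncomputable def radial : Measure (Ioi (0 : ℝ)) := Measure.volumeIoiPow 3

noncomputable instance : SigmaFinite radial := by unfold radial; infer_instance

theorem finrank_Q : Module.finrank ℝ (Quaternion ℝ) = 4 := Quaternion.finrank_eq_four

theorem mp_one : MeasurePreserving (fun q : S3 × Ioi (0 : ℝ) => (q.2 : ℝ) • (q.1 : Quaternion ℝ))
    (sph.prod radial) volume := by
  have h1 := ((volume : Measure (Quaternion ℝ)).measurePreserving_homeomorphUnitSphereProd)
  rw [finrank_Q] at h1
  have h2 := h1.symm (homeomorphUnitSphereProd (Quaternion ℝ)).toMeasurableEquiv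
  have h3 : MeasurePreserving (Subtype.val : ({0}ᶜ : Set (Quaternion ℝ)) → Quaternion ℝ)
      (volume.comap Subtype.val) volume := by
    refine ⟨measurable_subtype_coe, ?_⟩
    rw [map_comap_subtype_coe (measurableSet_singleton _).compl, restrict_compl_singleton]
  exact h3.comp h2

noncomputable instance : SigmaFinite sph := by unfold sph; infer_instance

variable {V : Type*} [Fintype V]

noncomputable instance : SigmaFinite (Measure.pi fun _ : V => sph) := Measure.pi.sigmaFinite _

noncomputable instance : SigmaFinite (Measure.pi fun _ : V => radial) := Measure.pi.sigmaFinite _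

/-- polar coordinates in all variables -/
theorem lintegral_polar {H : (V → Quaternion ℝ) → ℝ≥0∞} (hH : Measurable H) :
    ∫⁻ x, H x = ∫⁻ r : V → Ioi (0 : ℝ), ∫⁻ u : V → S3, H (fun v => (r v : ℝ) • (u v : Quaternion ℝ))
      ∂(Measure.pi fun _ => sph) ∂(Measure.pi fun _ => radial) := by
  have h1 : MeasurePreserving (fun (q : V → S3 × Ioi (0 : ℝ)) v => ((q v).2 : ℝ) • ((q v).1 : Quaternion ℝ))
      (Measure.pi fun _ => sph.prod radial) (Measure.pi fun _ => volume) :=
    measurePreserving_pi _ _ fun _ => mp_one
  have h2 := (measurePreserving_arrowProdEquivProdArrow S3 (Ioi (0 : ℝ)) V (fun _ => sph) (fun _ => radial)).symm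
  have h3 := h1.comp h2
  have hv : (volume : Measure (V → Quaternion ℝ)) = Measure.pi fun _ => volume := rfl
  rw [hv, ← h3.lintegral_comp hH]
  exact lintegral_prod_symm _ (hH.comp h3.measurable).aemeasurable

theorem orth_sum {α : Type*} [MeasurableSpace α] (μ : Measure α) {J : Type*} [Fintype J] [DecidableEq J]
    (g : J → α → ℂ) (hm : ∀ j, AEStronglyMeasurable (g j) μ)
    (ho : ∀ i j, ∫ x, g i x * conj (g j x) ∂μ = if i = j then 1 else 0) (d : J → ℂ) :
    ∫⁻ x, ENNReal.ofReal (‖∑ j, d j * g j x‖ ^ 2) ∂μ = ENNReal.ofReal (∑ j, ‖d j‖ ^ 2) := by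
  have hself : ∀ j, Integrable (fun x => g j x * conj (g j x)) μ := by
    intro j
    by_contra hn
    have h1 := ho j j
    rw [integral_undef hn, if_pos rfl] at h1
    exact zero_ne_one h1
  have hsq : ∀ j, Integrable (fun x => ‖g j x‖ ^ 2) μ := by
    intro j
    refine (hself j).norm.congr (Filter.Eventually.of_forall fun x => ?_)
    simp only [norm_mul, RCLike.norm_conj]
    ring
  have hij : ∀ i j, Integrable (fun x => g i x * conj (g j x)) μ := by
    intro i j
    refine Integrable.mono' ((hsq i).add (hsq j)) ?_ ?_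
    · exact (hm i).mul (hm j).star
    · refine Filter.Eventually.of_forall fun x => ?_
      rw [norm_mul, RCLike.norm_conj]
      simp only [Pi.add_apply]
      nlinarith [sq_nonneg (‖g i x‖ - ‖g j x‖), sq_nonneg (‖g i x‖), sq_nonneg (‖g j x‖)]
  have hexp : ∀ x, ((‖∑ j, d j * g j x‖ ^ 2 : ℝ) : ℂ) = ∑ i, ∑ j, d i * conj (d j) * (g i x * conj (g j x)) := by
    intro x
    rw [← Complex.normSq_eq_norm_sq, ← Complex.mul_conj, map_sum, Finset.sum_mul_sum]
    refine Finset.sum_congr rfl fun i _ => Finset.sum_congr rfl fun j _ => ?_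
    rw [map_mul]
    ring
  have hint : Integrable (fun x => ((‖∑ j, d j * g j x‖ ^ 2 : ℝ) : ℂ)) μ := by
    simp_rw [hexp]
    exact integrable_finsetSum _ fun i _ => integrable_finsetSum _ fun j _ => (hij i j).const_mul _
  have hval : ∫ x, ((‖∑ j, d j * g j x‖ ^ 2 : ℝ) : ℂ) ∂μ = ((∑ j, ‖d j‖ ^ 2 : ℝ) : ℂ) := by
    simp_rw [hexp]
    rw [integral_finsetSum]
    · push_cast
      refine Finset.sum_congr rfl fun i _ => ?_
      rw [integral_finsetSum]
      · simp_rw [integral_const_mul, ho]
        simp only [mul_ite, mul_one, mul_zero, Finset.sum_ite_eq, Finset.mem_univ, if_true]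
        rw [Complex.mul_conj, Complex.normSq_eq_norm_sq]
        push_cast
        rfl
      · intro j _
        exact (hij i j).const_mul _
    · intro i _
      exact integrable_finsetSum _ fun j _ => (hij i j).const_mul _
  have hintR : Integrable (fun x => ‖∑ j, d j * g j x‖ ^ 2) μ := by
    exact hint.re
  rw [← ofReal_integral_eq_lintegral_ofReal hintR (Filter.Eventually.of_forall fun x => sq_nonneg _)]
  congr 1
  have h5 : ((∫ x, ‖∑ j, d j * g j x‖ ^ 2 ∂μ : ℝ) : ℂ) = ((∑ j, ‖d j‖ ^ 2 : ℝ) : ℂ) := by
    rw [← hval]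
    exact integral_ofReal.symm
  exact_mod_cast h5

end Pool.Agent.H496
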